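import Pool.Agent.Lib.MP_8b575b_co.Cyc.Spec

/-!
# MP_8b575b_co, cyclic codes, module Asy: the behaviour at infinity
-/

set_option autoImplicit false

namespace Pool.Agent.MP8b

open Polynomial Finset

open scoped Classical

private lemma asy_monic {F : Type} [Field F] (A : Finset F) : (PH A).Monic :=
  monic_prod_of_monic _ _ (fun u _ => monic_X_sub_C u)

private lemma asy_nat {F : Type} [Field F] (A : Finset F) : (PH A).natDegree = A.card := by
  rw [PH, natDegree_prod_of_monic _ _ (fun u _ => monic_X_sub_C u)]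
  simp

private lemma asy_sum {ι : Type} {F : Type} [Field F] (s : Finset ι) (f : ι → F[X]) (n : ℕ)
    (h : ∀ i ∈ s, (f i).natDegree ≤ n) : (∑ i ∈ s, f i).natDegree ≤ n :=
  natDegree_sum_le_of_forall_le s f h

theorem tAsy : S_Lin → S_Om → S_Asy := by
  intro hLin hOm K F _ _ _ _ _ k D hk hNb
  obtain ⟨hprod, hcard⟩ := hOm K F k D hk hNb
  obtain ⟨hF, hU, -, hDc⟩ := hNb
  set q := Fintype.card K with hq
  have hq2 : 2 ≤ q := Fintype.one_lt_card
  -- the data of the subspaces
  have hex : ∀ U : Submodule K F, ∃ (R : F[X]) (c : F), U ∈ D → R.natDegree ≤ q ^ (k - 1) ∧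
      PH (el U) = X ^ q ^ k + R ∧ derivative (PH (el U)) = C c := by
    intro U
    by_cases hUD : U ∈ D
    · obtain ⟨R, c, h1, h2, h3⟩ := hLin K F U k hk (hU U hUD).2
      exact ⟨R, c, fun _ => ⟨h1, h2, h3⟩⟩
    · exact ⟨0, 0, fun h => absurd h hUD⟩
  choose R c hRc using hex
  -- numbers
  have hA2 : 2 ≤ q ^ k := le_trans hq2 (Nat.le_self_pow (by omega) q)
  have hBA : q ^ (k - 1) < q ^ k := Nat.pow_lt_pow_right (by omega) (by omega)
  have hAC : q ^ k ≤ q ^ (k + 1) := Nat.pow_le_pow_right (by omega) (by omega)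
  have hS : q ^ k * 2 ≤ q ^ k * q ^ k := Nat.mul_le_mul_left _ hA2
  have hLd : ∀ U ∈ D, (PH (el U)).natDegree = q ^ k := by
    intro U hUD
    obtain ⟨h1, h2, -⟩ := hRc U hUD
    rw [h2, natDegree_add_eq_left_of_natDegree_lt, natDegree_X_pow]
    rw [natDegree_X_pow]
    omega
  set L : Submodule K F → F[X] := fun U => PH (el U) with hL
  set P : F[X] := ∏ U ∈ D, L U with hP
  set H : F[X] := PH (hol D) with hH
  have hPm : P.Monic := monic_prod_of_monic _ _ (fun U _ => asy_monic _)
  have hPd : P.natDegree = q ^ k * q ^ k := by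
    rw [hP, natDegree_prod_of_monic _ _ (fun U _ => asy_monic _), Finset.sum_congr rfl hLd,
      Finset.sum_const, hDc, smul_eq_mul]
  set ρ : F[X] := ∑ U ∈ D, C (c U) * R U * ∏ W ∈ D.erase U, L W with hρ
  set a : F := - ∑ U ∈ D, c U with ha
  have hPder : X ^ q ^ k * derivative P = - C a * P - ρ := by
    rw [hP, derivative_prod_finset, Finset.mul_sum, hρ, ha]
    rw [C_neg, neg_neg, map_sum, Finset.sum_mul, ← Finset.sum_sub_distrib]
    refine Finset.sum_congr rfl fun U hUD => ?_
    obtain ⟨h1, h2, h3⟩ := hRc U hUD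
    rw [← Finset.mul_prod_erase D L hUD]
    have h4 : L U = X ^ q ^ k + R U := h2
    have h5 : derivative (L U) = C (c U) := h3
    rw [h5, h4]
    ring
  -- the derivative of the right side
  have hqF : (q : F) = 0 := by
    have h1 : ((Fintype.card K : ℕ) : K) = 0 := FiniteField.cast_card_eq_zero K
    have h2 := congrArg (algebraMap K F) h1
    rw [map_natCast, map_zero] at h2
    exact h2
  have hΩ : derivative ((X ^ q - X : F[X]) ^ q ^ k * (X ^ q ^ (2 * k) - X)) =
      - (X ^ q - X) ^ q ^ k := by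
    have h1 : ((q ^ k : ℕ) : F[X]) = 0 := by
      have : ((q ^ k : ℕ) : F) = 0 := by
        rw [Nat.cast_pow, hqF, zero_pow (by omega)]
      rw [← C_eq_natCast, this, C_0]
    have h2 : ((q ^ (2 * k) : ℕ) : F[X]) = 0 := by
      have : ((q ^ (2 * k) : ℕ) : F) = 0 := by
        rw [Nat.cast_pow, hqF, zero_pow (by omega)]
      rw [← C_eq_natCast, this, C_0]
    rw [derivative_mul, derivative_pow, derivative_sub, derivative_sub, derivative_X_pow,
      derivative_X_pow, derivative_X]
    simp only [C_eq_natCast, h1, h2]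
    ring
  have hder : derivative H * P + H * derivative P = - (X ^ q - X) ^ q ^ k := by
    rw [← derivative_mul, hprod, hΩ]
  refine ⟨a, ?_⟩
  set T : F[X] := X ^ q ^ k * derivative H - C a * H with hT
  have hTP : T * P = - (X ^ q ^ k * (X ^ q - X) ^ q ^ k) + H * ρ := by
    have h1 : X ^ q ^ k * (derivative H * P + H * derivative P) =
        X ^ q ^ k * (- (X ^ q - X) ^ q ^ k) := by rw [hder]
    have h2 : X ^ q ^ k * (derivative H * P + H * derivative P) =
        X ^ q ^ k * derivative H * P + H * (X ^ q ^ k * derivative P) := by ring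
    rw [h2, hPder] at h1
    rw [hT]
    linear_combination h1
  by_cases hT0 : T = 0
  · rw [hT0, natDegree_zero]
    exact Nat.zero_le _
  -- degrees
  have hρd : ρ.natDegree ≤ q ^ (k - 1) + (q ^ k - 1) * q ^ k := by
    refine asy_sum _ _ _ fun U hUD => ?_
    obtain ⟨h1, -, -⟩ := hRc U hUD
    have h2 : (∏ W ∈ D.erase U, L W).natDegree ≤ (q ^ k - 1) * q ^ k := by
      rw [natDegree_prod_of_monic _ _ (fun U _ => asy_monic _),
        Finset.sum_congr rfl (fun W hW => hLd W (Finset.mem_of_mem_erase hW)), Finset.sum_const,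
        Finset.card_erase_of_mem hUD, hDc, smul_eq_mul]
    refine natDegree_mul_le.trans (Nat.add_le_add ?_ h2)
    refine natDegree_mul_le.trans ?_
    rw [natDegree_C, zero_add]
    exact h1
  have hHd : H.natDegree = q ^ (k + 1) := by rw [hH, asy_nat, hcard]
  have h1 : (H * ρ).natDegree ≤ q ^ (k + 1) + (q ^ (k - 1) + (q ^ k - 1) * q ^ k) :=
    natDegree_mul_le.trans (Nat.add_le_add hHd.le hρd)
  have h2 : (X ^ q ^ k * (X ^ q - X : F[X]) ^ q ^ k).natDegree ≤ q ^ k + q ^ (k + 1) := by
    refine natDegree_mul_le.trans (Nat.add_le_add ?_ ?_)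
    · exact natDegree_X_pow_le _
    · refine natDegree_pow_le.trans ?_
      have h3 : (X ^ q - X : F[X]).natDegree ≤ q := by
        refine (natDegree_sub_le _ _).trans (max_le (natDegree_X_pow_le _) ?_)
        rw [natDegree_X]
        omega
      calc q ^ k * (X ^ q - X : F[X]).natDegree ≤ q ^ k * q := Nat.mul_le_mul_left _ h3
        _ = q ^ (k + 1) := (pow_succ q k).symm
  have h3 : (T * P).natDegree = T.natDegree + q ^ k * q ^ k := by
    rw [natDegree_mul hT0 hPm.ne_zero, hPd]
  have h4 : (T * P).natDegree ≤ max (q ^ k + q ^ (k + 1))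
      (q ^ (k + 1) + (q ^ (k - 1) + (q ^ k - 1) * q ^ k)) := by
    rw [hTP]
    refine (natDegree_add_le _ _).trans (max_le_max ?_ h1)
    rw [natDegree_neg]
    exact h2
  have h5 : (q ^ k - 1) * q ^ k + q ^ k = q ^ k * q ^ k := by
    have : q ^ k - 1 + 1 = q ^ k := by omega
    calc (q ^ k - 1) * q ^ k + q ^ k = (q ^ k - 1 + 1) * q ^ k := by ring
      _ = q ^ k * q ^ k := by rw [this]
  rw [h3] at h4
  generalize (q ^ k - 1) * q ^ k = Y at h4 h5
  generalize q ^ k * q ^ k = S at h4 h5 hS
  rcases le_max_iff.mp h4 with h | h <;> omega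

end Pool.Agent.MP8b
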