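import Pool.Agent.Lib.MP_8b575b_co.Cyc.Spec

/-!
# MP_8b575b_co, module `Cyc/Clo`: the comparison polynomial has less than `q ^ (k + 1)` roots
-/

set_option autoImplicit false

namespace Pool.Agent.MP8b

open Polynomial Finset

open scoped Classical

/-- The point identity. -/
private theorem clo_point {F : Type} [Field F] [Fintype F] (p e q k : ℕ) [CharP F p]
    (hp : p.Prime) (hq : q = p ^ e) (hk : 3 ≤ k) (hF : Fintype.card F = q ^ (2 * k)) (d x : F)
    (hx : x ^ q ^ (k + 1) - x +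
      d * ((x ^ q ^ (k - 1) - x) * (x ^ q ^ k - x ^ q ^ (k - 1)) ^ (q - 1)) = 0) :
    x ^ q ^ 2 - x + d * ((x ^ q ^ (k - 1) - x) * (x ^ q ^ k - x ^ q ^ (k - 1)) ^ (q - 1)) *
      (1 + d ^ q ^ (k + 1) * (x ^ q - x) ^ (q - 1)) = 0 := by
  have : ExpChar F p := ExpChar.prime hp
  have hcard : ∀ z : F, z ^ q ^ (2 * k) = z := by
    intro z
    rw [← hF]
    exact FiniteField.pow_card z
  have hφ : ∀ z : F, z ^ q ^ (k + 1) = iterateFrobenius F p (e * (k + 1)) z := by
    intro z
    rw [iterateFrobenius_def, hq, ← pow_mul]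
  set φ := iterateFrobenius F p (e * (k + 1)) with hφdef
  set y : F := x ^ q ^ (k + 1) with hy
  have hφx : φ x = y := by rw [← hφ]
  have h1 : y ^ q ^ (k + 1) = x ^ q ^ 2 := by
    rw [hy, ← pow_mul, ← pow_add]
    have : k + 1 + (k + 1) = 2 * k + 2 := by ring
    rw [this, pow_add, pow_mul, hcard]
  have h2 : y ^ q ^ (k - 1) = x := by
    rw [hy, ← pow_mul, ← pow_add]
    have : k + 1 + (k - 1) = 2 * k := by omega
    rw [this, hcard]
  have h3 : y ^ q ^ k = x ^ q := by
    rw [hy, ← pow_mul, ← pow_add]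
    have : k + 1 + k = 2 * k + 1 := by ring
    rw [this, pow_add, pow_mul, hcard, pow_one]
  have h4 := congrArg φ hx
  simp only [map_add, map_sub, map_mul, map_pow, map_zero] at h4
  have h5 : φ y = x ^ q ^ 2 := by rw [← hφ, h1]
  rw [hφx, h5, h2, h3, ← hφ d] at h4
  linear_combination h4 + hx * (1 + d ^ q ^ (k + 1) * (x ^ q - x) ^ (q - 1))

theorem tClo : S_Clo := by
  intro F _ _ p e q k _ hp he hq hk hF d A hA hroot
  have hq2 : 2 ≤ q := by
    rw [hq]
    exact hp.two_le.trans (Nat.le_self_pow (by omega) p)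
  have e1 : q ^ k = q * q ^ (k - 1) := by
    rw [← pow_succ']
    congr 1
    omega
  have e2 : q ^ (k + 1) = q * q ^ k := pow_succ' q k
  have e0 : q * q ≤ q ^ (k - 1) := by
    rw [← pow_two]
    exact Nat.pow_le_pow_right (by omega) (by omega)
  set d' : F := d ^ q ^ (k + 1) with hd'
  set B : F[X] := (X ^ q ^ (k - 1) - X) * (X ^ q ^ k - X ^ q ^ (k - 1)) ^ (q - 1) with hB
  set Ψ : F[X] := X ^ q ^ 2 - X + C d * B * (1 + C d' * (X ^ q - X) ^ (q - 1)) with hΨ
  have hev : ∀ x ∈ A, Ψ.eval x = 0 := by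
    intro x hx
    have h := hroot x hx
    unfold Hd at h
    simp only [eval_add, eval_sub, eval_mul, eval_pow, eval_X, eval_C] at h
    have h' := clo_point p e q k hp hq hk hF d x h
    rw [hΨ, hB]
    simp only [eval_add, eval_sub, eval_mul, eval_pow, eval_X, eval_C, eval_one]
    exact h'
  have hle1 : q ≤ q ^ (k - 1) := Nat.le_self_pow (by omega) q
  have dB : B.natDegree ≤ q ^ (k - 1) + (q - 1) * q ^ k := by
    refine natDegree_mul_le.trans (Nat.add_le_add ?_ (natDegree_pow_le.trans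
      (Nat.mul_le_mul_left _ ?_)))
    · refine (natDegree_sub_le _ _).trans ?_
      rw [natDegree_X_pow, natDegree_X]
      omega
    · refine (natDegree_sub_le _ _).trans ?_
      rw [natDegree_X_pow, natDegree_X_pow, max_le_iff]
      exact ⟨le_rfl, Nat.pow_le_pow_right (by omega) (by omega)⟩
  have dT : (1 + C d' * (X ^ q - X) ^ (q - 1) : F[X]).natDegree ≤ (q - 1) * q := by
    refine (natDegree_add_le _ _).trans ?_
    rw [max_le_iff]
    refine ⟨by simp, ?_⟩
    refine (natDegree_C_mul_le _ _).trans (natDegree_pow_le.trans (Nat.mul_le_mul_left _ ?_))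
    refine (natDegree_sub_le _ _).trans ?_
    rw [natDegree_X_pow, natDegree_X]
    omega
  have hnum : q ^ (k - 1) + (q - 1) * q ^ k + (q - 1) * q < q ^ (k + 1) := by
    obtain ⟨r, rfl⟩ : ∃ r, q = r + 1 := ⟨q - 1, by omega⟩
    rw [e2, e1]
    simp only [Nat.add_sub_cancel]
    nlinarith
  have hq2k : q ^ 2 < q ^ (k + 1) := Nat.pow_lt_pow_right (by omega) (by omega)
  have hq1k : 1 < q ^ (k + 1) := Nat.one_lt_pow (by omega) (by omega)
  have dΨ : Ψ.natDegree < A.card := by
    rw [hA]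
    refine lt_of_le_of_lt (natDegree_add_le _ _) ?_
    rw [max_lt_iff]
    refine ⟨?_, ?_⟩
    · refine lt_of_le_of_lt (natDegree_sub_le _ _) ?_
      rw [natDegree_X_pow, natDegree_X, max_lt_iff]
      exact ⟨hq2k, hq1k⟩
    · refine lt_of_le_of_lt ?_ hnum
      refine natDegree_mul_le.trans (Nat.add_le_add ((natDegree_C_mul_le _ _).trans dB) dT)
  have h0 : Ψ = 0 := eq_zero_of_natDegree_lt_card_of_eval_eq_zero' Ψ A hev dΨ
  have hBdvd : (X ^ 2 : F[X]) ∣ B := by
    rw [hB]
    refine dvd_mul_of_dvd_right ?_ _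
    refine dvd_trans ?_ (dvd_pow_self _ (by omega))
    refine dvd_sub (pow_dvd_pow _ ?_) (pow_dvd_pow _ ?_)
    · nlinarith
    · nlinarith
  have hXdvd : (X ^ 2 : F[X]) ∣ X := by
    have h1 : (X : F[X]) = X ^ q ^ 2 + C d * B * (1 + C d' * (X ^ q - X) ^ (q - 1)) := by
      have := h0
      rw [hΨ] at this
      linear_combination -this
    have h2 : (X ^ 2 : F[X]) ∣ X ^ q ^ 2 + C d * B * (1 + C d' * (X ^ q - X) ^ (q - 1)) := by
      refine dvd_add (pow_dvd_pow _ (by nlinarith)) ?_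
      exact dvd_mul_of_dvd_left (dvd_mul_of_dvd_right hBdvd _) _
    rw [← h1] at h2
    exact h2
  have h3 := natDegree_le_of_dvd hXdvd X_ne_zero
  rw [natDegree_X_pow, natDegree_X] at h3
  omega

end Pool.Agent.MP8b
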