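import Pool.Agent.Lib.MP_8b575b_co.Cyc.Spec

set_option autoImplicit false

namespace Pool.Agent.MP8b

open Polynomial Finset

open scoped Classical

private theorem Cnt_scal {K F : Type} [Field K] [Field F] [Algebra K F] (U W : Submodule K F)
    (h : Module.finrank K ↥(U ⊓ W) ≤ 1) [FiniteDimensional K F] (hU : (1 : F) ∈ U)
    (hW : (1 : F) ∈ W) (x : F) (hxU : x ∈ U) (hxW : x ∈ W) : ∃ c : K, algebraMap K F c = x := by
  obtain ⟨v, hv⟩ := finrank_le_one_iff.mp h
  obtain ⟨c, hc⟩ := hv ⟨1, hU, hW⟩
  obtain ⟨d, hd⟩ := hv ⟨x, hxU, hxW⟩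
  have hc' : c • (v : F) = 1 := congrArg Subtype.val hc
  have hd' : d • (v : F) = x := congrArg Subtype.val hd
  have hc0 : c ≠ 0 := by
    rintro rfl
    rw [zero_smul] at hc'
    exact zero_ne_one hc'
  refine ⟨d * c⁻¹, ?_⟩
  rw [Algebra.algebraMap_eq_smul_one, ← hc', smul_smul, mul_assoc, inv_mul_cancel₀ hc0, mul_one,
    hd']

private theorem Cnt_el {K F : Type} [Field K] [Fintype K] [Field F] [Fintype F] [Algebra K F]
    (U : Submodule K F) (k : ℕ) (h : Module.finrank K U = k) :
    (el U).card = Fintype.card K ^ k := by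
  rw [← h, ← Module.card_eq_pow_finrank (K := K) (V := U), el, ← Fintype.card_subtype]

private theorem Cnt_r {K F : Type} [Field K] [Fintype K] [Field F] [Fintype F] [Algebra K F]
    (D : Finset (Submodule K F))
    (hD : ∀ a : F, a ≠ 0 → ∀ U ∈ D, U.map (LinearMap.mulLeft K a) ∈ D) (x : F) (hx : x ≠ 0) :
    (D.filter fun U => x ∈ U).card = (D.filter fun U => (1 : F) ∈ U).card := by
  have hmm : ∀ (a b : F), a * b = 1 → ∀ U : Submodule K F,
      (U.map (LinearMap.mulLeft K a)).map (LinearMap.mulLeft K b) = U := by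
    intro a b hab U
    ext y
    simp only [Submodule.mem_map, LinearMap.mulLeft_apply]
    constructor
    · rintro ⟨_, ⟨z, hz, rfl⟩, rfl⟩
      rw [← mul_assoc, mul_comm b a, hab, one_mul]
      exact hz
    · intro hy
      exact ⟨a * y, ⟨y, hy, rfl⟩, by rw [← mul_assoc, mul_comm b a, hab, one_mul]⟩
  refine Finset.card_nbij' (fun U => U.map (LinearMap.mulLeft K x⁻¹))
    (fun U => U.map (LinearMap.mulLeft K x)) ?_ ?_ ?_ ?_
  · intro U hU
    have hU' := Finset.mem_filter.mp (Finset.mem_coe.mp hU)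
    refine Finset.mem_coe.mpr (Finset.mem_filter.mpr ⟨hD _ (inv_ne_zero hx) _ hU'.1, ?_⟩)
    exact ⟨x, hU'.2, by rw [LinearMap.mulLeft_apply, inv_mul_cancel₀ hx]⟩
  · intro U hU
    have hU' := Finset.mem_filter.mp (Finset.mem_coe.mp hU)
    refine Finset.mem_coe.mpr (Finset.mem_filter.mpr ⟨hD _ hx _ hU'.1, ?_⟩)
    exact ⟨1, hU'.2, by rw [LinearMap.mulLeft_apply, mul_one]⟩
  · intro U hU
    exact hmm _ _ (inv_mul_cancel₀ hx) U
  · intro U hU
    exact hmm _ _ (mul_inv_cancel₀ hx) U

theorem tCnt : S_Cnt := by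
  intro K F _ _ _ _ _ k D hk hCy
  obtain ⟨hF, hfr, hint, hmul⟩ := hCy
  have : FiniteDimensional K F := inferInstance
  set q := Fintype.card K with hq
  have hq2 : 2 ≤ q := Fintype.one_lt_card
  set r := (D.filter fun U => (1 : F) ∈ U).card with hr
  have hqk : q ≤ q ^ k := by simpa using Nat.pow_le_pow_right (n := q) (by omega) hk
  have hq2k : q ^ (2 * k) = q ^ k * q ^ k := by rw [two_mul, pow_add]
  constructor
  · -- counting of pairs
    have h1 : ∑ U ∈ D, ((el U).erase 0).card = ∑ x ∈ (univ : Finset F).erase 0,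
        (D.filter fun U => x ∈ U).card := by
      have h2 : ∀ U ∈ D, ((el U).erase 0).card = ∑ x ∈ (univ : Finset F).erase 0,
          if x ∈ U then 1 else 0 := by
        intro U _
        rw [Finset.card_eq_sum_ones, ← Finset.sum_filter]
        refine Finset.sum_congr ?_ fun _ _ => rfl
        ext x
        simp [el]
      have h3 : ∀ x ∈ (univ : Finset F).erase 0, (D.filter fun U => x ∈ U).card =
          ∑ U ∈ D, if x ∈ U then 1 else 0 := by
        intro x _
        rw [Finset.card_eq_sum_ones, Finset.sum_filter]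
      rw [Finset.sum_congr rfl h2, Finset.sum_congr rfl h3, Finset.sum_comm]
    have h4 : ∑ U ∈ D, ((el U).erase 0).card = D.card * (q ^ k - 1) := by
      rw [Finset.sum_const_nat]
      intro U hU
      rw [Finset.card_erase_of_mem (by simp [el]), Cnt_el U k (hfr U hU)]
    have h5 : ∑ x ∈ (univ : Finset F).erase 0, (D.filter fun U => x ∈ U).card =
        (q ^ (2 * k) - 1) * r := by
      rw [Finset.sum_const_nat (m := r)]
      · rw [Finset.card_erase_of_mem (Finset.mem_univ _), Finset.card_univ, hF]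
      · intro x hx
        exact Cnt_r D hmul x (Finset.ne_of_mem_erase hx)
    have h6 : q ^ (2 * k) - 1 = (q ^ k + 1) * (q ^ k - 1) := by
      rw [hq2k]
      obtain ⟨z, hz⟩ : ∃ z, q ^ k = z + 1 := ⟨q ^ k - 1, by omega⟩
      rw [hz]
      simp only [Nat.add_sub_cancel]
      have : (z + 1) * (z + 1) = (z + 1 + 1) * z + 1 := by ring
      rw [this, Nat.add_sub_cancel]
    have h7 : D.card * (q ^ k - 1) = (r * (q ^ k + 1)) * (q ^ k - 1) := by
      rw [← h4, h1, h5, h6]
      ring
    exact Nat.eq_of_mul_eq_mul_right (by omega) h7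
  · -- disjoint sets
    set sc : Finset F := univ.image (algebraMap K F) with hsc
    have hscard : sc.card = q := by
      rw [hsc, Finset.card_image_of_injective _ (algebraMap K F).injective, Finset.card_univ]
    have h1 : ∀ U ∈ D.filter (fun U => (1 : F) ∈ U), (el U \ sc).card = q ^ k - q := by
      intro U hU
      have hU' := Finset.mem_filter.mp hU
      rw [Finset.card_sdiff_of_subset, Cnt_el U k (hfr U hU'.1), hscard]
      intro x hx
      obtain ⟨c, -, rfl⟩ := Finset.mem_image.mp hx
      rw [el, Finset.mem_filter]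
      refine ⟨Finset.mem_univ _, ?_⟩
      rw [Algebra.algebraMap_eq_smul_one]
      exact U.smul_mem _ hU'.2
    have h2 : ((D.filter (fun U => (1 : F) ∈ U)).biUnion fun U => el U \ sc).card =
        r * (q ^ k - q) := by
      rw [Finset.card_biUnion]
      · rw [Finset.sum_const_nat h1]
      · intro U hU W hW hUW
        have hU' := Finset.mem_filter.mp hU
        have hW' := Finset.mem_filter.mp hW
        refine Finset.disjoint_left.mpr ?_
        intro x hx hx'
        simp only [Finset.mem_sdiff, el, Finset.mem_filter] at hx hx'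
        obtain ⟨c, hc⟩ := Cnt_scal U W (hint U hU'.1 W hW'.1 hUW) hU'.2 hW'.2 x hx.1.2 hx'.1.2
        exact hx.2 (Finset.mem_image.mpr ⟨c, Finset.mem_univ _, hc⟩)
    rw [← h2]
    have h3 : ((univ : Finset F) \ sc).card = q ^ (2 * k) - q := by
      rw [Finset.card_sdiff_of_subset (Finset.subset_univ _), Finset.card_univ, hF, hscard]
    rw [← h3]
    apply Finset.card_le_card
    intro x hx
    obtain ⟨U, _, hxU⟩ := Finset.mem_biUnion.mp hx
    exact Finset.mem_sdiff.mpr ⟨Finset.mem_univ _, (Finset.mem_sdiff.mp hxU).2⟩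

end Pool.Agent.MP8b
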