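import Pool.Agent.Lib.MP_8b575b_co.Cyc.Spec

/-!
# MP_8b575b_co, module `Cyc/Core`: no closed set of `q ^ k` subspaces
-/

set_option autoImplicit false

namespace Pool.Agent.MP8b

open Polynomial Finset

open scoped Classical

private theorem core_PH_monic {F : Type} [Field F] (A : Finset F) : (PH A).Monic :=
  monic_prod_of_monic _ _ fun u _ => monic_X_sub_C u

private theorem core_PH_deg {F : Type} [Field F] (A : Finset F) :
    (PH A).natDegree = A.card := by
  unfold PH
  rw [natDegree_prod_of_monic _ _ fun u _ => monic_X_sub_C u]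
  simp

private theorem core_PH_sep {F : Type} [Field F] (A : Finset F) : (PH A).Separable := by
  unfold PH
  exact separable_prod_X_sub_C_iff'.2 fun x _ y _ h => h

private theorem core_mem {K F : Type} [Field K] [Field F] [Fintype F] [Algebra K F]
    (D : Finset (Submodule K F)) (x : F) :
    x ∈ hol D ↔ (∃ c : K, algebraMap K F c = x) ∨ ∀ U ∈ D, x ∉ U := by
  unfold hol
  simp

theorem tCore : S_Om → S_Asy → S_Hda → S_Hdi → S_Inv → S_Wr → S_Clo → S_Core := by
  intro hOm hAsy hHda hHdi hInv hWr hClo K F _ _ _ _ _ k D hk hN hcl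
  obtain ⟨p, hp⟩ := CharP.exists K
  obtain ⟨n, hpp, hcard⟩ := FiniteField.card K p
  have : CharP F p := charP_of_injective_algebraMap (algebraMap K F).injective p
  set q : ℕ := Fintype.card K with hq
  have he : 1 ≤ (n : ℕ) := n.pos
  have hq2 : 2 ≤ q := by
    rw [hcard]
    exact hpp.two_le.trans (Nat.le_self_pow (by omega) p)
  obtain ⟨_, hA⟩ := hOm K F k D (by omega) hN
  obtain ⟨a, ha⟩ := hAsy K F k D (by omega) hN
  rw [← hq] at hA ha
  obtain ⟨mG, dG, aG⟩ := hHda F p n q k hpp he hcard (by omega) (-a)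
  obtain ⟨rG, tG⟩ := hHdi F p n q k hpp he hcard (by omega) (-a)
  have h0 : (0 : F) ∈ hol D := by
    rw [core_mem]
    exact Or.inl ⟨0, map_zero _⟩
  have hinv : ∀ x ∈ hol D, x⁻¹ ∈ hol D := by
    intro x hx
    rw [core_mem] at hx ⊢
    rcases hx with ⟨c, rfl⟩ | hx
    · exact Or.inl ⟨c⁻¹, map_inv₀ _ _⟩
    · refine Or.inr fun U hU hxU => ?_
      obtain ⟨W, hW, hxW⟩ := hcl x⁻¹ ⟨U, hU, hxU⟩
      rw [inv_inv] at hxW
      exact hx W hW hxW
  have hadd : ∀ c : K, ∀ x ∈ hol D, x + algebraMap K F c ∈ hol D := by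
    intro c x hx
    rw [core_mem] at hx ⊢
    rcases hx with ⟨b, rfl⟩ | hx
    · exact Or.inl ⟨b + c, map_add _ _ _⟩
    · refine Or.inr fun U hU hxU => hx U hU ?_
      have h1 : algebraMap K F c ∈ U := by
        rw [Algebra.algebraMap_eq_smul_one]
        exact U.smul_mem _ (hN.2.1 U hU).1
      have := U.sub_mem hxU h1
      rwa [add_sub_cancel_right] at this
  obtain ⟨⟨κ, hκ, rH⟩, tH⟩ : _ ∧ _ :=
    ⟨(hInv F (hol D) h0).1 hinv, (hInv F (hol D) h0).2⟩
  rw [hA] at rH
  have hle : q ^ (k - 1) ≤ q ^ k := Nat.pow_le_pow_right (by omega) (by omega)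
  have hle2 : q ^ k ≤ q ^ (k + 1) := Nat.pow_le_pow_right (by omega) (by omega)
  have hlt : q ^ (k - 1) < q ^ k := Nat.pow_lt_pow_right (by omega) (by omega)
  have e2 : q ^ (k + 1) = q * q ^ k := pow_succ' q k
  have e1 : q ^ k = q * q ^ (k - 1) := by
    rw [← pow_succ']
    congr 1
    omega
  have hdeg : q ^ (k + 1) - (q ^ k - q ^ (k - 1)) = q ^ (k + 1) - q ^ k + q ^ (k - 1) := by
    omega
  set S : Finset F := univ.image (algebraMap K F) with hS
  have hScard : S.card = q := by
    rw [hS, Finset.card_image_of_injective _ (algebraMap K F).injective, Finset.card_univ]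
  have hpow : ∀ c : K, (algebraMap K F c) ^ q = algebraMap K F c := by
    intro c
    rw [← map_pow, FiniteField.pow_card]
  have hWeq := hWr F (q ^ (k + 1)) (q ^ k) (q ^ k - q ^ (k - 1)) a κ (-1) (PH (hol D))
    (Hd q k (-a)) S (by omega) (by rw [core_PH_deg, hA]) dG.le hκ (neg_ne_zero.2 one_ne_zero)
    rH (by rw [rG]; simp)
    (by rw [hdeg]; exact ha)
    (by
      rw [hdeg]
      have : (X ^ q ^ k * derivative (Hd q k (-a)) - C a * Hd q k (-a) : F[X]) =
          X ^ q ^ k * derivative (Hd q k (-a)) + C (-a) * Hd q k (-a) := by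
        rw [C_neg]
        ring
      rw [this]
      exact aG)
    (by
      intro c hc
      rw [hS, Finset.mem_image] at hc
      obtain ⟨b, _, rfl⟩ := hc
      exact ⟨tH _ (hadd b), tG _ (hpow b)⟩)
    (by
      rw [hScard, e2]
      obtain ⟨r, hr⟩ : ∃ r, q ^ k = q ^ (k - 1) + r := ⟨q ^ k - q ^ (k - 1), by omega⟩
      have : q ^ k - q ^ (k - 1) = r := by omega
      rw [this]
      have h1 : (q + 1) * (q ^ k + r) = q * q ^ k + q * r + q ^ k + r := by ring
      have h2 : q * q ^ k = q * q ^ (k - 1) + q * r := by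
        conv_lhs => rw [hr]
        ring
      rw [← e1] at h2
      rw [h1]
      omega)
  have hcop : IsCoprime (PH (hol D)) (derivative (PH (hol D))) := core_PH_sep _
  have hdvd : PH (hol D) ∣ Hd q k (-a) := by
    refine hcop.dvd_of_dvd_mul_left ?_
    rw [← hWeq]
    exact dvd_mul_right _ _
  have hHG : Hd q k (-a) = PH (hol D) :=
    eq_of_monic_of_dvd_of_natDegree_le (core_PH_monic _) mG hdvd
      (by rw [dG, core_PH_deg, hA])
  refine hClo F p n q k hpp he hcard hk hN.1 (-a) (hol D) hA fun x hx => ?_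
  rw [hHG]
  unfold PH
  rw [eval_prod]
  refine Finset.prod_eq_zero hx ?_
  simp

end Pool.Agent.MP8b
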