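import Pool.Agent.Lib.MP_8b575b_co.Cyc.Spec

/-! # MP_8b575b_co: cyclic codes -/

set_option autoImplicit false

namespace Pool.Agent.MP8b

open Polynomial Finset

open scoped Classical

private theorem fie_geo (q k : ℕ) (hq : 2 ≤ q) :
    (∑ i ∈ range k, q ^ i) * (q - 1) + 1 = q ^ k := by
  obtain ⟨n, rfl⟩ : ∃ n, q = n + 1 := ⟨q - 1, by omega⟩
  rw [Nat.add_sub_cancel]
  exact geom_sum_mul_add n k

private theorem fie_num {q k r m ε Dc : ℕ} (hq : 2 ≤ q) (hk : 3 ≤ k) (hD : Dc = r * (q ^ k + 1))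
    (hr : r * (q ^ k - q) ≤ q ^ (2 * k) - q) (hε : ε ≤ 1)
    (hm : r = m * (∑ i ∈ range k, q ^ i) + ε) (hc : q ^ (2 * k) ≤ Dc) : r = q ^ k := by
  obtain ⟨Q, hQ⟩ : ∃ Q, Q = q ^ k := ⟨_, rfl⟩
  obtain ⟨θ, hθ⟩ : ∃ θ, θ = ∑ i ∈ range k, q ^ i := ⟨_, rfl⟩
  have hgeo := fie_geo q k hq
  have h2 : q ^ (2 * k) = Q * Q := by
    rw [hQ, two_mul, pow_add]
  rw [h2] at hr hc
  rw [← hQ] at hD hr hgeo ⊢
  rw [← hθ] at hm hgeo
  -- `Q ≥ q ^ 3`
  have hQ3 : q ^ 3 ≤ Q := by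
    rw [hQ]
    exact Nat.pow_le_pow_right (by omega) hk
  have hqq : q * q < Q := by
    have : q ^ 3 = q * q * q := by ring
    nlinarith
  -- `θ ≥ 1 + q + q ^ 2`
  have hθ3 : 1 + q + q * q ≤ θ := by
    rw [hθ]
    obtain ⟨n, rfl⟩ : ∃ n, k = 3 + n := ⟨k - 3, by omega⟩
    rw [sum_range_add]
    have h3 : ∑ i ∈ range 3, q ^ i = 1 + q + q * q := by
      simp [sum_range_succ]
      ring
    rw [h3]
    exact Nat.le_add_right _ _
  obtain ⟨n, rfl⟩ : ∃ n, q = n + 1 := ⟨q - 1, by omega⟩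
  rw [Nat.add_sub_cancel] at hgeo
  have h4 : Q ≤ r := by
    by_contra h
    have h5 : r + 1 ≤ Q := by omega
    have h6 : Dc + 1 ≤ Q * Q := by
      rw [hD]
      nlinarith
    omega
  have h5 : r ≤ Q + (n + 1) := by
    by_contra h
    have h6 : Q + (n + 1) + 1 ≤ r := by omega
    have h0 : n + 1 ≤ Q := by nlinarith
    obtain ⟨s, hs⟩ : ∃ s, Q = s + (n + 1) := ⟨Q - (n + 1), by omega⟩
    have h7 : Q - (n + 1) = s := by omega
    rw [h7] at hr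
    have h8 : (Q + (n + 1) + 1) * s ≤ r * s := Nat.mul_le_mul_right _ h6
    have h9 : Q * Q - (n + 1) + (n + 1) = Q * Q := Nat.sub_add_cancel (by nlinarith)
    have h10 : (Q + (n + 1) + 1) * s + (n + 1) ≤ Q * Q := by omega
    rw [hs] at h10 hqq
    nlinarith
  have h6 : m ≤ n := by
    by_contra h
    have h7 : n + 1 ≤ m := by omega
    have h8 : (n + 1) * θ ≤ m * θ := Nat.mul_le_mul_right _ h7
    nlinarith
  have h7 : m * θ ≤ n * θ := Nat.mul_le_mul_right _ h6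
  have h8 : n * θ + 1 = Q := by rw [← hgeo, mul_comm]
  omega

theorem tFie : S_Core → S_Cnt → S_Orb → S_Fie := by
  intro hCore hCnt hOrb K F _ _ _ _ _ k D hk hD
  have hq : 2 ≤ Fintype.card K := Fintype.one_lt_card
  by_contra hcon
  have hc : Fintype.card K ^ (2 * k) ≤ D.card := by omega
  obtain ⟨h1, h2⟩ := hCnt K F k D (by omega) hD
  obtain ⟨m, ε, hε, h3⟩ := hOrb K F k D (by omega) hD
  have h4 := fie_num hq hk h1 h2 hε h3 hc
  obtain ⟨hF, hdim, hpair, hinv⟩ := hD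
  refine hCore K F k (D.filter fun U => (1 : F) ∈ U) hk ⟨hF, ?_, ?_, h4⟩ ?_
  · intro U hU
    rw [mem_filter] at hU
    exact ⟨hU.2, hdim U hU.1⟩
  · intro U hU W hW
    rw [mem_filter] at hU hW
    exact hpair U hU.1 W hW.1
  · rintro x ⟨U, hU, hxU⟩
    rw [mem_filter] at hU
    by_cases hx : x = 0
    · refine ⟨U, mem_filter.2 hU, ?_⟩
      rw [hx, inv_zero]
      exact U.zero_mem
    · refine ⟨U.map (LinearMap.mulLeft K x⁻¹), mem_filter.2 ⟨hinv x⁻¹ (inv_ne_zero hx) U hU.1, ?_⟩,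
        ?_⟩
      · exact Submodule.mem_map.2 ⟨x, hxU, inv_mul_cancel₀ hx⟩
      · exact Submodule.mem_map.2 ⟨1, hU.2, mul_one _⟩

end Pool.Agent.MP8b
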