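import Pool.Agent.Lib.MP_8b575b_co.Cyc.Spec

/-! # MP_8b575b_co: the comparison polynomial at infinity -/

set_option autoImplicit false

namespace Pool.Agent.MP8b

open Polynomial Finset

open scoped Classical

section hda

variable {F : Type} [Field F]

private theorem hda_pow (n : ℕ) : (X ^ n : F[X]).natDegree ≤ n := natDegree_X_pow_le n

/-- the degree of `B` -/
private theorem hda_B {q k : ℕ} :
    ((X ^ q ^ (k - 1) - X) * (X ^ q ^ k - X ^ q ^ (k - 1)) ^ (q - 1) : F[X]).natDegree ≤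
      max (q ^ (k - 1)) 1 + (q - 1) * max (q ^ k) (q ^ (k - 1)) := by
  refine natDegree_mul_le_of_le ?_ ?_
  · exact natDegree_sub_le_of_le (hda_pow _) natDegree_X_le
  · exact natDegree_pow_le_of_le _ (natDegree_sub_le_of_le (hda_pow _) (hda_pow _))

/-- `Z ^ m - (Z - 1) ^ m` has degree at most `m - 1` in `Z` -/
private theorem hda_Z (Z : F[X]) (m : ℕ) :
    (Z ^ m - (Z - 1) ^ m).natDegree ≤ (m - 1) * Z.natDegree := by
  have h1 := (Commute.all Z (Z - 1)).geom_sum₂_mul m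
  have h2 : Z - (Z - 1) = 1 := by ring
  rw [h2, mul_one] at h1
  rw [← h1]
  refine natDegree_sum_le_of_forall_le _ _ fun i hi => ?_
  rw [mem_range] at hi
  have h3 : (Z - 1).natDegree ≤ Z.natDegree :=
    (natDegree_sub_le_of_le (le_refl _) (by rw [natDegree_one]; exact Nat.zero_le _)).trans
      (max_self _).le
  calc (Z ^ i * (Z - 1) ^ (m - 1 - i)).natDegree ≤ i * Z.natDegree + (m - 1 - i) * Z.natDegree :=
        natDegree_mul_le_of_le natDegree_pow_le (natDegree_pow_le_of_le _ h3)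
    _ = (m - 1) * Z.natDegree := by
        rw [← add_mul]
        congr 1
        omega

/-- `Y ^ q ^ 2 - Y ^ q * (Y ^ q - Y) ^ (q - 1)` -/
private theorem hda_Y (Y : F[X]) {q : ℕ} (hq : 2 ≤ q) :
    (Y ^ q ^ 2 - Y ^ q * (Y ^ q - Y) ^ (q - 1)).natDegree ≤ (q ^ 2 - q + 1) * Y.natDegree := by
  obtain ⟨m, rfl⟩ : ∃ m, q = m + 1 := ⟨q - 1, by omega⟩
  obtain ⟨r, rfl⟩ : ∃ r, m = r + 1 := ⟨m - 1, by omega⟩
  rw [Nat.add_sub_cancel]
  have h1 : Y ^ (r + 1 + 1) ^ 2 - Y ^ (r + 1 + 1) * (Y ^ (r + 1 + 1) - Y) ^ (r + 1) =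
      Y ^ (r + 1 + 1 + (r + 1)) * ((Y ^ (r + 1)) ^ (r + 1) - (Y ^ (r + 1) - 1) ^ (r + 1)) := by
    have h2 : Y ^ (r + 1 + 1) - Y = Y * (Y ^ (r + 1) - 1) := by
      rw [mul_sub, mul_one, pow_succ Y (r + 1)]
      ring
    have h3 : (r + 1 + 1) ^ 2 = (r + 1 + 1 + (r + 1)) + (r + 1) * (r + 1) := by ring
    rw [h2, mul_pow, h3, pow_add Y (r + 1 + 1 + (r + 1)), pow_mul Y (r + 1) (r + 1),
      pow_add Y (r + 1 + 1) (r + 1)]
    ring
  rw [h1]
  refine (natDegree_mul_le_of_le natDegree_pow_le ((hda_Z _ _).trans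
    (Nat.mul_le_mul_left _ natDegree_pow_le))).trans ?_
  rw [← mul_assoc, ← add_mul]
  refine Nat.mul_le_mul_right _ ?_
  have h4 : (r + 1 + 1) ^ 2 - (r + 1 + 1) = (r + 1 + 1) * (r + 1) := by
    have : (r + 1 + 1) ^ 2 = (r + 1 + 1) * (r + 1) + (r + 1 + 1) := by ring
    omega
  rw [h4, Nat.add_sub_cancel]
  nlinarith

end hda

theorem tHda : S_Hda := by
  intro F _ p e q k _ hp he hqe hk d
  have hq : 2 ≤ q := by
    rw [hqe]
    exact hp.two_le.trans (Nat.le_self_pow (by omega) p)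
  have hq1 : 1 ≤ q := by omega
  have hqF : (q : F) = 0 := by
    rw [hqe, Nat.cast_pow, CharP.cast_eq_zero F p, zero_pow (by omega)]
  -- numbers
  have hk1 : q ^ k = q ^ (k - 1) * q := by
    rw [← pow_succ]
    congr 1
    omega
  have hk2 : q ^ (k + 1) = q ^ k * q := pow_succ q k
  have hle1 : 1 ≤ q ^ (k - 1) := Nat.one_le_pow _ _ (by omega)
  have hle2 : q ^ (k - 1) < q ^ k := by
    rw [hk1]
    nlinarith
  have hle3 : 2 * q ^ k ≤ q ^ (k + 1) := by
    rw [hk2]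
    nlinarith
  obtain ⟨N, hN⟩ : ∃ N, N = q ^ (k + 1) - q ^ k + q ^ (k - 1) := ⟨_, rfl⟩
  have hNlt : N < q ^ (k + 1) := by omega
  have hNk : q ^ k ≤ N := by omega
  have hNB : max (q ^ (k - 1)) 1 + (q - 1) * max (q ^ k) (q ^ (k - 1)) = N := by
    rw [max_eq_left hle1, max_eq_left hle2.le, hN, Nat.sub_mul, one_mul, hk2, mul_comm q, add_comm]
  obtain ⟨E, hE⟩ : ∃ E : F[X], E = X ^ q ^ k - X ^ q ^ (k - 1) := ⟨_, rfl⟩
  obtain ⟨B, hB⟩ : ∃ B : F[X], B = (X ^ q ^ (k - 1) - X) * E ^ (q - 1) := ⟨_, rfl⟩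
  have hBdeg : B.natDegree ≤ N := by
    rw [hB, hE, ← hNB]
    exact hda_B
  have hHd : Hd q k d = X ^ q ^ (k + 1) + (C d * B - X) := by
    unfold Hd
    rw [hB, hE]
    ring
  have hRdeg : (C d * B - X : F[X]).natDegree ≤ N := by
    refine (natDegree_sub_le_of_le (natDegree_C_mul_le _ _ |>.trans hBdeg) natDegree_X_le).trans ?_
    exact max_le le_rfl (by omega)
  have hRdeg' : (C d * B - X : F[X]).degree < ((q ^ (k + 1) : ℕ) : WithBot ℕ) :=
    lt_of_le_of_lt (degree_le_of_natDegree_le hRdeg) (by exact_mod_cast hNlt)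
  have hmon : (Hd q k d).Monic := by
    rw [hHd]
    exact monic_X_pow_add hRdeg'
  have hdeg : (Hd q k d).natDegree = q ^ (k + 1) := by
    rw [hHd]
    refine natDegree_eq_of_degree_eq_some ?_
    rw [degree_add_eq_left_of_degree_lt (by rw [degree_X_pow]; exact hRdeg'), degree_X_pow]
  refine ⟨hmon, hdeg, ?_⟩
  -- the derivative
  have hcast : ∀ j, 1 ≤ j → ((q ^ j : ℕ) : F) = 0 := by
    intro j hj
    rw [Nat.cast_pow, hqF, zero_pow (by omega)]
  have hdX : ∀ j, 1 ≤ j → derivative (X ^ q ^ j : F[X]) = 0 := by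
    intro j hj
    rw [derivative_X_pow, hcast j hj, C_0, zero_mul]
  have hE' : derivative E = 0 := by
    rw [hE, derivative_sub, hdX k (by omega), hdX (k - 1) (by omega), sub_zero]
  have hB' : derivative B = -E ^ (q - 1) := by
    rw [hB, derivative_mul, derivative_sub, hdX (k - 1) (by omega), derivative_X, derivative_pow,
      hE', mul_zero, mul_zero, add_zero, zero_sub, neg_one_mul]
  have hH' : derivative (Hd q k d) = -(C d * E ^ (q - 1)) - 1 := by
    rw [hHd, derivative_add, hdX (k + 1) (by omega), zero_add, derivative_sub, derivative_mul,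
      derivative_C, zero_mul, zero_add, hB', derivative_X, mul_neg]
  obtain ⟨Y, hY⟩ : ∃ Y : F[X], Y = X ^ q ^ (k - 1) := ⟨_, rfl⟩
  have hYq : (X ^ q ^ k : F[X]) = Y ^ q := by
    rw [hY, ← pow_mul, ← hk1]
  have hYqq : (X ^ q ^ (k + 1) : F[X]) = Y ^ q ^ 2 := by
    rw [hY, ← pow_mul]
    congr 1
    rw [hk2, hk1, sq, mul_assoc]
  have hEY : E = Y ^ q - Y := by rw [hE, hYq, hY]
  have hYdeg : Y.natDegree ≤ q ^ (k - 1) := by rw [hY]; exact hda_pow _
  have hmain : X ^ q ^ k * derivative (Hd q k d) + C d * Hd q k d =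
      C d * (Y ^ q ^ 2 - Y ^ q * (Y ^ q - Y) ^ (q - 1)) + C d * (C d * B - X) - X ^ q ^ k := by
    rw [hH', hHd, hYqq, hYq, hEY]
    ring
  rw [hmain, ← hN]
  have h1 : (Y ^ q ^ 2 - Y ^ q * (Y ^ q - Y) ^ (q - 1)).natDegree ≤ N := by
    refine (hda_Y Y hq).trans ((Nat.mul_le_mul_left _ hYdeg).trans (le_of_eq ?_))
    have h2 : q ≤ q ^ 2 := Nat.le_self_pow two_ne_zero q
    rw [hN, add_mul, one_mul, Nat.sub_mul, hk2, hk1]
    congr 2
    · ring
    · ring
  refine (natDegree_sub_le_of_le (natDegree_add_le_of_le ((natDegree_C_mul_le _ _).trans h1)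
    ((natDegree_C_mul_le _ _).trans hRdeg)) (hda_pow _)).trans ?_
  exact max_le (max_le le_rfl le_rfl) hNk

end Pool.Agent.MP8b
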