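import Pool.Agent.Lib.MP_8b575b_co.Cyc.Spec

/-!
# MP_8b575b_co, module `Cyc/Hdi`: symmetries of the comparison polynomial
-/

set_option autoImplicit false

namespace Pool.Agent.MP8b

open Polynomial Finset

open scoped Classical

private theorem hdi_refl {F : Type} [Field F] (N n : ℕ) (h : n ≤ N) :
    reflect N (X ^ n : F[X]) = X ^ (N - n) := by
  rw [reflect_monomial, revAt_le h]

private theorem hdi_refl1 {F : Type} [Field F] (N : ℕ) (h : 1 ≤ N) :
    reflect N (X : F[X]) = X ^ (N - 1) := by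
  have := hdi_refl (F := F) N 1 h
  rwa [pow_one] at this

private theorem hdi_pow {F : Type} [Field F] (P : F[X]) (N m : ℕ) (h : P.natDegree ≤ N) :
    reflect (m * N) (P ^ m) = (reflect N P) ^ m := by
  induction m with
  | zero => simp
  | succ m ih =>
    rw [pow_succ, pow_succ, add_mul, one_mul, reflect_mul _ _ _ h, ih]
    exact (natDegree_pow_le).trans (Nat.mul_le_mul_left m h)

theorem tHdi : S_Hdi := by
  intro F _ p e q k _ hp he hq hk d
  have hq2 : 2 ≤ q := by
    rw [hq]
    exact hp.two_le.trans (Nat.le_self_pow (by omega) p)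
  have hneg : ((-1 : F) ^ (q - 1)) = 1 := by
    rcases hp.eq_two_or_odd' with h2 | hodd
    · subst h2
      have h1 : (-1 : F) = 1 := by
        have : (2 : F) = 0 := by
          have := CharP.cast_eq_zero F 2
          simpa using this
        linear_combination -this
      rw [h1, one_pow]
    · have hqodd : Odd q := by
        rw [hq]
        exact hodd.pow
      obtain ⟨m, hm⟩ := hqodd
      have : q - 1 = 2 * m := by omega
      rw [this, pow_mul]
      simp
  have e1 : q ^ k = q * q ^ (k - 1) := by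
    rw [← pow_succ']
    congr 1
    omega
  have e2 : q ^ (k + 1) = q * q ^ k := pow_succ' q k
  have hpos : 1 ≤ q ^ (k - 1) := Nat.one_le_pow _ _ (by omega)
  have hle : q ^ (k - 1) ≤ q ^ k := Nat.pow_le_pow_right (by omega) (by omega)
  have hle2 : q ^ k ≤ q ^ (k + 1) := Nat.pow_le_pow_right (by omega) (by omega)
  refine ⟨?_, fun c hc => ?_⟩
  · unfold Hd
    have hN : q ^ (k + 1) + 1 = (q ^ (k - 1) + 1) + (q - 1) * (q ^ k + q ^ (k - 1)) := by
      obtain ⟨r, rfl⟩ : ∃ r, q = r + 1 := ⟨q - 1, by omega⟩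
      rw [e2, e1]
      simp only [Nat.add_sub_cancel]
      ring
    have dA : (X ^ q ^ (k - 1) - X : F[X]).natDegree ≤ q ^ (k - 1) + 1 := by
      refine (natDegree_sub_le _ _).trans ?_
      rw [natDegree_X_pow, natDegree_X]
      omega
    have dE : (X ^ q ^ k - X ^ q ^ (k - 1) : F[X]).natDegree ≤ q ^ k + q ^ (k - 1) := by
      refine (natDegree_sub_le _ _).trans ?_
      rw [natDegree_X_pow, natDegree_X_pow]
      omega
    have dEq : ((X ^ q ^ k - X ^ q ^ (k - 1) : F[X]) ^ (q - 1)).natDegree ≤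
        (q - 1) * (q ^ k + q ^ (k - 1)) :=
      (natDegree_pow_le).trans (Nat.mul_le_mul_left _ dE)
    have rA : reflect (q ^ (k - 1) + 1) (X ^ q ^ (k - 1) - X : F[X]) = -(X ^ q ^ (k - 1) - X) := by
      rw [reflect_sub, hdi_refl _ _ (by omega), hdi_refl1 _ (by omega)]
      have : q ^ (k - 1) + 1 - q ^ (k - 1) = 1 := by omega
      rw [this]
      simp
    have rE : reflect (q ^ k + q ^ (k - 1)) (X ^ q ^ k - X ^ q ^ (k - 1) : F[X]) =
        C (-1) * (X ^ q ^ k - X ^ q ^ (k - 1)) := by
      rw [reflect_sub, hdi_refl _ _ (by omega), hdi_refl _ _ (by omega)]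
      have h1 : q ^ k + q ^ (k - 1) - q ^ k = q ^ (k - 1) := by omega
      have h2 : q ^ k + q ^ (k - 1) - q ^ (k - 1) = q ^ k := by omega
      rw [h1, h2]
      simp
    have rT : reflect (q ^ (k + 1) + 1) (X ^ q ^ (k + 1) - X : F[X]) =
        -(X ^ q ^ (k + 1) - X) := by
      rw [reflect_sub, hdi_refl _ _ (by omega), hdi_refl1 _ (by omega)]
      have : q ^ (k + 1) + 1 - q ^ (k + 1) = 1 := by omega
      rw [this]
      simp
    have rB : reflect (q ^ (k + 1) + 1)
        ((X ^ q ^ (k - 1) - X) * (X ^ q ^ k - X ^ q ^ (k - 1)) ^ (q - 1) : F[X]) =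
        -((X ^ q ^ (k - 1) - X) * (X ^ q ^ k - X ^ q ^ (k - 1)) ^ (q - 1)) := by
      rw [hN, reflect_mul _ _ dA dEq, hdi_pow _ _ _ dE, rA, rE, mul_pow, ← C_pow, hneg, C_1]
      ring
    rw [reflect_add, rT, reflect_C_mul, rB]
    ring
  · have hpow : ∀ j : ℕ, c ^ q ^ j = c := by
      intro j
      induction j with
      | zero => simp
      | succ j ih => rw [pow_succ, pow_mul, ih, hc]
    have hX : ∀ j : ℕ, (X + C c : F[X]) ^ q ^ j = X ^ q ^ j + C c := by
      intro j
      have : ExpChar F[X] p := ExpChar.prime hp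
      have : q ^ j = p ^ (e * j) := by rw [hq, pow_mul]
      rw [this, add_pow_expChar_pow, ← this, ← C_pow, hpow]
    unfold Hd
    simp only [add_comp, sub_comp, mul_comp, pow_comp, X_comp, C_comp, hX]
    ring

end Pool.Agent.MP8b
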