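import Pool.Agent.Lib.MP_8b575b_co.Cyc.Spec

/-!
# MP_8b575b_co, module `Cyc/Inv`: invariance of the polynomial of an invariant set
-/

set_option autoImplicit false

namespace Pool.Agent.MP8b

open Polynomial Finset

open scoped Classical

private theorem inv_lin {F : Type} [Field F] (a : F) :
    reflect 1 (X - C a : F[X]) = 1 - C a * X := by
  rw [reflect_sub, reflect_C, pow_one]
  have h : reflect 1 (X : F[X]) = 1 := by
    have := reflect_monomial (R := F) 1 1
    rw [pow_one] at this
    rw [this, revAt_le le_rfl]
    simp
  rw [h]

private theorem inv_prod {F : Type} [Field F] (B : Finset F) :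
    reflect B.card (∏ u ∈ B, (X - C u)) = ∏ u ∈ B, (1 - C u * X : F[X]) := by
  induction B using Finset.induction_on with
  | empty =>
    simp
  | insert a B ha ih =>
    rw [Finset.prod_insert ha, Finset.prod_insert ha, Finset.card_insert_of_notMem ha, add_comm,
      reflect_mul, ih, inv_lin]
    · exact (natDegree_X_sub_C a).le
    · rw [natDegree_prod_of_monic _ _ fun u _ => monic_X_sub_C u]
      simp

private theorem inv_two {F : Type} [Field F] : reflect 2 (X : F[X]) = X := by
  have := reflect_monomial (R := F) 2 1
  rw [pow_one] at this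
  rw [this, revAt_le (by norm_num)]
  simp

theorem tInv : S_Inv := by
  intro F _ A h0
  refine ⟨fun hinv => ?_, fun c hc => ?_⟩
  · refine ⟨∏ u ∈ A.erase 0, (-u), ?_, ?_⟩
    · rw [Finset.prod_ne_zero_iff]
      intro u hu
      exact neg_ne_zero.2 (Finset.ne_of_mem_erase hu)
    · have h1 : PH A = X * ∏ u ∈ A.erase 0, (X - C u) := by
        unfold PH
        rw [← Finset.mul_prod_erase A _ h0]
        simp
      have hcard : A.card + 1 = 2 + (A.erase 0).card := by
        have := Finset.card_erase_add_one h0
        omega
      have hdeg : (∏ u ∈ A.erase 0, (X - C u : F[X])).natDegree ≤ (A.erase 0).card := by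
        rw [natDegree_prod_of_monic _ _ fun u _ => monic_X_sub_C u]
        simp
      have h2 : ∏ u ∈ A.erase 0, (1 - C u * X : F[X]) =
          C (∏ u ∈ A.erase 0, (-u)) * ∏ u ∈ A.erase 0, (X - C u) := by
        have h3 : ∀ u ∈ A.erase 0, (1 - C u * X : F[X]) = C (-u) * (X - C u⁻¹) := by
          intro u hu
          have hu0 : u ≠ 0 := Finset.ne_of_mem_erase hu
          rw [mul_sub, ← C_mul, neg_mul, mul_inv_cancel₀ hu0]
          simp
          ring
        rw [Finset.prod_congr rfl h3, Finset.prod_mul_distrib, map_prod]
        congr 1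
        refine Finset.prod_bij' (fun u _ => u⁻¹) (fun u _ => u⁻¹) ?_ ?_ ?_ ?_ ?_
        · intro u hu
          rw [Finset.mem_erase] at hu ⊢
          exact ⟨inv_ne_zero hu.1, hinv u hu.2⟩
        · intro u hu
          rw [Finset.mem_erase] at hu ⊢
          exact ⟨inv_ne_zero hu.1, hinv u hu.2⟩
        · intro u _
          simp
        · intro u _
          simp
        · intro u _
          rfl
      rw [hcard, h1, reflect_mul _ _ (by rw [natDegree_X]; norm_num) hdeg, inv_prod, inv_two, h2]
      ring
  · unfold PH
    rw [Polynomial.prod_comp]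
    have h3 : ∀ u ∈ A, (X - C u : F[X]).comp (X + C c) = X - C (u - c) := by
      intro u _
      simp
      ring
    rw [Finset.prod_congr rfl h3]
    have hinj : Function.Injective fun x : F => x + c := add_left_injective c
    have himg : A.image (fun x => x + c) = A := by
      apply Finset.eq_of_subset_of_card_le
      · intro y hy
        rw [Finset.mem_image] at hy
        obtain ⟨x, hx, rfl⟩ := hy
        exact hc x hx
      · rw [Finset.card_image_of_injective _ hinj]
    calc ∏ u ∈ A, (X - C (u - c) : F[X])
        = ∏ u ∈ A.image (fun x => x + c), (X - C (u - c) : F[X]) := by rw [himg]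
      _ = ∏ u ∈ A, (X - C (u + c - c) : F[X]) := by
          rw [Finset.prod_image fun x _ y _ h => hinj h]
      _ = ∏ u ∈ A, (X - C u : F[X]) := by simp

end Pool.Agent.MP8b
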