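import Pool.Agent.Lib.MP_8b575b_co.Cyc.Spec

/-! # MP_8b575b_co: the polynomial of a subspace is linearized -/

set_option autoImplicit false

namespace Pool.Agent.MP8b

open Polynomial Finset

open scoped Classical

section lin

variable {K F : Type} [Field K] [Fintype K] [Field F] [Fintype F] [Algebra K F]

omit [Fintype K] in
private theorem lin_mem (U : Submodule K F) (x : F) : x ∈ el U ↔ x ∈ U := by
  unfold el
  rw [mem_filter]
  exact ⟨fun h => h.2, fun h => ⟨mem_univ x, h⟩⟩

private theorem lin_card (U : Submodule K F) :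
    (el U).card = Fintype.card K ^ Module.finrank K U := by
  have h1 : (el U).card = Fintype.card U := by
    rw [← Fintype.card_coe]
    exact Fintype.card_congr (Equiv.subtypeEquivRight fun x => lin_mem U x)
  rw [h1, Module.card_eq_pow_finrank (K := K) (V := U)]

omit [Fintype F] in
private theorem lin_monic (A : Finset F) : (PH A).Monic :=
  monic_prod_of_monic _ _ fun u _ => monic_X_sub_C u

omit [Fintype F] in
private theorem lin_deg (A : Finset F) : (PH A).natDegree = A.card := by
  unfold PH
  rw [natDegree_prod_of_monic _ _ fun u _ => monic_X_sub_C u]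
  simp

omit [Fintype F] in
/-- `∏ (y - c b) = y ^ q - b ^ (q - 1) y` in `F[X]` -/
private theorem lin_prod (Y : F[X]) {b : F} (hb : b ≠ 0) :
    ∏ c : K, (Y - C (algebraMap K F c * b)) =
      Y ^ Fintype.card K - C (b ^ (Fintype.card K - 1)) * Y := by
  have h1 : ∏ x : K, (X - C x) = X ^ Fintype.card K - X := by
    have h1 : (X ^ Fintype.card K - X : K[X]).Monic :=
      monic_X_pow_sub (by rw [degree_X]; exact_mod_cast Fintype.one_lt_card)
    have h2 := FiniteField.roots_X_pow_card_sub_X K
    have h3 : Multiset.card (X ^ Fintype.card K - X : K[X]).roots =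
        (X ^ Fintype.card K - X : K[X]).natDegree := by
      rw [h2, FiniteField.X_pow_card_sub_X_natDegree_eq K Fintype.one_lt_card]
      rfl
    have h4 := prod_multiset_X_sub_C_of_monic_of_roots_card_eq h1 h3
    rw [h2] at h4
    exact h4
  have h2 := congrArg (aeval (Y * C b⁻¹)) h1
  rw [map_prod, map_sub, map_pow, aeval_X] at h2
  have h3 : ∏ c : K, (Y - C (algebraMap K F c * b)) =
      (∏ c : K, aeval (Y * C b⁻¹) (X - C c)) * C b ^ Fintype.card K := by
    have h4 : (C b ^ Fintype.card K : F[X]) = ∏ _c : K, C b := by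
      rw [prod_const, card_univ]
    rw [h4, ← prod_mul_distrib]
    refine prod_congr rfl fun c _ => ?_
    rw [map_sub, aeval_X, aeval_C, sub_mul, mul_assoc, ← C_mul, inv_mul_cancel₀ hb, C_1, mul_one,
      C_mul]
    rfl
  have hcard : Fintype.card K = (Fintype.card K - 1) + 1 := by
    have : 1 < Fintype.card K := Fintype.one_lt_card
    omega
  rw [h3, h2, sub_mul, ← mul_pow, mul_assoc, ← C_mul, inv_mul_cancel₀ hb, C_1, mul_one]
  congr 1
  have h5 : (C b ^ Fintype.card K : F[X]) = C b * C (b ^ (Fintype.card K - 1)) := by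
    conv_lhs => rw [hcard]
    rw [pow_succ', C_pow]
  rw [h5, mul_assoc, ← mul_assoc (C b⁻¹), ← C_mul, inv_mul_cancel₀ hb, C_1, one_mul, mul_comm]

/-- the properties of the linearized polynomials -/
private structure LinP (K : Type) {F : Type} [Field K] [Fintype K] [Field F] [Algebra K F]
    (k : ℕ) (L : F[X]) : Prop where
  add : ∀ x y : F, L.eval (x + y) = L.eval x + L.eval y
  smul : ∀ (c : K) (x : F), L.eval (algebraMap K F c * x) = algebraMap K F c * L.eval x
  form : ∃ R : F[X], R.natDegree * Fintype.card K ≤ Fintype.card K ^ k ∧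
    L = X ^ Fintype.card K ^ k + R
  der : ∃ c : F, derivative L = C c

omit [Fintype F] in
private theorem lin_pow (x y : F) :
    (x + y) ^ Fintype.card K = x ^ Fintype.card K + y ^ Fintype.card K := by
  obtain ⟨p, hp⟩ := CharP.exists K
  obtain ⟨n, hn, hc⟩ := FiniteField.card K p
  have : Fact p.Prime := ⟨hn⟩
  have : CharP F p := charP_of_injective_algebraMap (algebraMap K F).injective p
  rw [hc]
  exact add_pow_char_pow x y p n

omit [Fintype F] in
private theorem lin_powX (x y : F[X]) :
    (x + y) ^ Fintype.card K = x ^ Fintype.card K + y ^ Fintype.card K := by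
  obtain ⟨p, hp⟩ := CharP.exists K
  obtain ⟨n, hn, hc⟩ := FiniteField.card K p
  have : Fact p.Prime := ⟨hn⟩
  have : CharP F p := charP_of_injective_algebraMap (algebraMap K F).injective p
  rw [hc]
  exact add_pow_char_pow x y p n

omit [Fintype F] in
/-- one step -/
private theorem lin_step {k : ℕ} {L' : F[X]} (h : LinP K k L') (hdeg : L'.natDegree ≤ Fintype.card K ^ k)
    (b : F) : LinP K (k + 1) (L' ^ Fintype.card K - C (b ^ (Fintype.card K - 1)) * L') := by
  have hev : ∀ x, (L' ^ Fintype.card K - C (b ^ (Fintype.card K - 1)) * L').eval x =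
      (L'.eval x) ^ Fintype.card K - b ^ (Fintype.card K - 1) * L'.eval x := by
    intro x
    rw [eval_sub, eval_pow, eval_mul, eval_C]
  refine ⟨fun x y => ?_, fun c x => ?_, ?_, ?_⟩
  · rw [hev, hev, hev, h.add, lin_pow (K := K)]
    ring
  · rw [hev, hev, h.smul, mul_pow, ← map_pow, FiniteField.pow_card]
    ring
  · obtain ⟨R, hR, hL⟩ := h.form
    refine ⟨R ^ Fintype.card K - C (b ^ (Fintype.card K - 1)) * L', ?_, ?_⟩
    · rw [pow_succ]
      refine Nat.mul_le_mul_right _ ?_
      refine (natDegree_sub_le_of_le natDegree_pow_le ((natDegree_C_mul_le _ _).trans hdeg)).trans ?_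
      refine max_le ?_ le_rfl
      rw [mul_comm]
      exact hR
    · conv_lhs => rw [hL]
      rw [lin_powX (K := K), ← pow_mul, ← pow_succ, hL]
      ring
  · obtain ⟨c, hc⟩ := h.der
    refine ⟨-(b ^ (Fintype.card K - 1) * c), ?_⟩
    have h0 : ((Fintype.card K : ℕ) : F) = 0 := by
      have h1 := congrArg (algebraMap K F) (FiniteField.cast_card_eq_zero K)
      rwa [map_natCast, map_zero] at h1
    rw [derivative_sub, derivative_pow, h0, C_0, zero_mul, zero_mul, zero_sub, derivative_mul,
      derivative_C, zero_mul, zero_add, hc, ← C_mul, ← C_neg]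

private theorem lin_all (k : ℕ) : ∀ U : Submodule K F, Module.finrank K U = k →
    LinP K k (PH (el U)) := by
  induction k with
  | zero =>
    intro U hU
    have h1 : U = ⊥ := Submodule.finrank_eq_zero.1 hU
    have h2 : el U = {0} := by
      ext x
      rw [lin_mem, h1, Submodule.mem_bot, mem_singleton]
    have h3 : PH (el U) = X := by
      rw [h2]
      unfold PH
      rw [prod_singleton, C_0, sub_zero]
    rw [h3]
    refine ⟨fun x y => ?_, fun c x => ?_, ⟨0, ?_, ?_⟩, 1, ?_⟩
    · simp
    · simp
    · simp
    · simp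
    · simp
  | succ k ih =>
    intro U hU
    -- decomposition
    have hne : U ≠ ⊥ := by
      rintro rfl
      rw [finrank_bot] at hU
      omega
    obtain ⟨w, hw, hw0⟩ := Submodule.exists_mem_ne_zero_of_ne_bot hne
    obtain ⟨W, hW⟩ := Submodule.exists_isCompl (Submodule.span K {w})
    obtain ⟨U', hU'⟩ : ∃ U', U' = U ⊓ W := ⟨_, rfl⟩
    have hspan : Submodule.span K {w} ≤ U := by
      rw [Submodule.span_singleton_le_iff_mem]
      exact hw
    have hinf : Submodule.span K {w} ⊓ U' = ⊥ := by
      rw [eq_bot_iff, hU']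
      exact (inf_le_inf_left _ inf_le_right).trans (le_of_eq hW.inf_eq_bot)
    have hsup : Submodule.span K {w} ⊔ U' = U := by
      rw [hU', inf_comm, ← sup_inf_assoc_of_le W hspan, hW.sup_eq_top, top_inf_eq]
    have hfin : Module.finrank K U' = k := by
      have h1 := Submodule.finrank_sup_add_finrank_inf_eq (Submodule.span K {w}) U'
      rw [hsup, hinf, finrank_bot, hU, finrank_span_singleton hw0] at h1
      omega
    have hwU' : w ∉ U' := by
      intro h
      have h1 : w ∈ Submodule.span K {w} ⊓ U' := ⟨Submodule.mem_span_singleton_self w, h⟩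
      rw [hinf, Submodule.mem_bot] at h1
      exact hw0 h1
    have hL := ih U' hfin
    have hdeg : (PH (el U')).natDegree = Fintype.card K ^ k := by
      rw [lin_deg, lin_card, hfin]
    obtain ⟨b, hb⟩ : ∃ b, b = (PH (el U')).eval w := ⟨_, rfl⟩
    have hb0 : b ≠ 0 := by
      rw [hb]
      unfold PH
      rw [eval_prod]
      refine prod_ne_zero_iff.2 fun u hu => ?_
      rw [eval_sub, eval_X, eval_C, sub_ne_zero]
      rintro rfl
      exact hwU' ((lin_mem U' w).1 hu)
    -- the translates
    have htr : ∀ c : K, ∏ u ∈ el U', (X - C (u + algebraMap K F c * w)) =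
        PH (el U') - C (algebraMap K F c * b) := by
      intro c
      have h1 : ∏ u ∈ el U', (X - C (u + algebraMap K F c * w)) =
          (PH (el U')).comp (X - C (algebraMap K F c * w)) := by
        unfold PH
        rw [Polynomial.prod_comp]
        refine prod_congr rfl fun u _ => ?_
        rw [sub_comp, X_comp, C_comp, C_add]
        ring
      rw [h1]
      have hcardF : Fintype.card K ^ k < (univ : Finset F).card := by
        have h2 : (el U).card ≤ (univ : Finset F).card := card_le_card (subset_univ _)
        rw [lin_card, hU] at h2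
        refine lt_of_lt_of_le ?_ h2
        exact Nat.pow_lt_pow_right Fintype.one_lt_card (Nat.lt_succ_self k)
      refine eq_of_degrees_lt_of_eval_finset_eq univ ?_ ?_ fun x _ => ?_
      · refine lt_of_le_of_lt degree_le_natDegree ?_
        rw [natDegree_comp, natDegree_X_sub_C, mul_one, hdeg]
        exact_mod_cast hcardF
      · refine lt_of_le_of_lt degree_le_natDegree ?_
        refine lt_of_le_of_lt (b := ((Fintype.card K ^ k : ℕ) : WithBot ℕ)) ?_
          (by exact_mod_cast hcardF)
        have h2 := natDegree_sub_le_of_le hdeg.le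
          (le_of_eq_of_le (natDegree_C (algebraMap K F c * b)) (Nat.zero_le (Fintype.card K ^ k)))
        rw [max_self] at h2
        exact_mod_cast h2
      · rw [eval_comp, eval_sub, eval_X, eval_C, eval_sub, eval_C]
        have h2 := hL.add (x - algebraMap K F c * w) (algebraMap K F c * w)
        rw [sub_add_cancel, hL.smul, ← hb] at h2
        rw [h2]
        ring
    -- the product
    have hprod : PH (el U) = ∏ c : K, ∏ u ∈ el U', (X - C (u + algebraMap K F c * w)) := by
      rw [← prod_product']
      unfold PH
      symm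
      refine prod_bij (fun (x : K × F) _ => x.2 + algebraMap K F x.1 * w) ?_ ?_ ?_ fun _ _ => rfl
      · rintro ⟨c, u⟩ hx
        rw [mem_product, lin_mem] at hx
        rw [lin_mem, ← hsup]
        refine Submodule.add_mem _ (Submodule.mem_sup_right hx.2) (Submodule.mem_sup_left ?_)
        rw [← Algebra.smul_def]
        exact Submodule.smul_mem _ _ (Submodule.mem_span_singleton_self w)
      · rintro ⟨c, u⟩ hx ⟨c', u'⟩ hx' he
        rw [mem_product, lin_mem] at hx hx'
        change u + algebraMap K F c * w = u' + algebraMap K F c' * w at he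
        have h1 : algebraMap K F (c - c') * w = u' - u := by
          rw [map_sub, sub_mul]
          linear_combination he
        have h2 : (c - c') • w ∈ U' := by
          rw [Algebra.smul_def, h1]
          exact U'.sub_mem hx'.2 hx.2
        have h3 : c = c' := by
          by_contra hne
          have h4 := U'.smul_mem (c - c')⁻¹ h2
          rw [smul_smul, inv_mul_cancel₀ (sub_ne_zero.2 hne), one_smul] at h4
          exact hwU' h4
        subst h3
        rw [add_left_inj] at he
        rw [he]
      · intro x hx
        rw [lin_mem, ← hsup, Submodule.mem_sup] at hx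
        obtain ⟨y, hy, u, hu, rfl⟩ := hx
        obtain ⟨c, rfl⟩ := Submodule.mem_span_singleton.1 hy
        refine ⟨(c, u), mem_product.2 ⟨mem_univ c, (lin_mem U' u).2 hu⟩, ?_⟩
        change u + algebraMap K F c * w = c • w + u
        rw [Algebra.smul_def, add_comm]
    rw [hprod, prod_congr rfl fun c _ => htr c, lin_prod (K := K) _ hb0]
    exact lin_step hL hdeg.le b

end lin

theorem tLin : S_Lin := by
  intro K F _ _ _ _ _ U k hk hU
  have h := lin_all k U hU
  obtain ⟨R, hR, hL⟩ := h.form
  obtain ⟨c, hc⟩ := h.der
  refine ⟨R, c, ?_, hL, hc⟩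
  obtain ⟨j, rfl⟩ : ∃ j, k = j + 1 := ⟨k - 1, by omega⟩
  rw [pow_succ] at hR
  exact Nat.le_of_mul_le_mul_right hR Fintype.card_pos

end Pool.Agent.MP8b
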