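import Pool.Agent.Lib.MP_8b575b_co.Cyc.Spec

/-! # MP_8b575b_co: the product identity and the number of the holes -/

set_option autoImplicit false

namespace Pool.Agent.MP8b

open Polynomial Finset

open scoped Classical

section om

variable {K F : Type} [Field K] [Fintype K] [Field F] [Fintype F] [Algebra K F]

private theorem om_univ (L : Type) [Field L] [Fintype L] :
    ∏ x : L, (X - C x) = X ^ Fintype.card L - X := by
  have h1 : (X ^ Fintype.card L - X : L[X]).Monic :=
    monic_X_pow_sub (by rw [degree_X]; exact_mod_cast Fintype.one_lt_card)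
  have h2 := FiniteField.roots_X_pow_card_sub_X L
  have h3 : Multiset.card (X ^ Fintype.card L - X : L[X]).roots =
      (X ^ Fintype.card L - X : L[X]).natDegree := by
    rw [h2, FiniteField.X_pow_card_sub_X_natDegree_eq L Fintype.one_lt_card]
    rfl
  have h4 := prod_multiset_X_sub_C_of_monic_of_roots_card_eq h1 h3
  rw [h2] at h4
  exact h4

omit [Fintype K] in
private theorem om_mem_hol (D : Finset (Submodule K F)) (x : F) :
    x ∈ hol D ↔ (∃ c : K, algebraMap K F c = x) ∨ ∀ U ∈ D, x ∉ U := by
  unfold hol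
  rw [mem_filter]
  exact ⟨fun h => h.2, fun h => ⟨mem_univ x, h⟩⟩

omit [Fintype K] in
private theorem om_mem_el (U : Submodule K F) (x : F) : x ∈ el U ↔ x ∈ U := by
  unfold el
  rw [mem_filter]
  exact ⟨fun h => h.2, fun h => ⟨mem_univ x, h⟩⟩

/-- the scalars -/
private noncomputable def om_sc (K F : Type) [Field K] [Fintype K] [Field F] [Algebra K F] :
    Finset F := univ.image (algebraMap K F)

omit [Fintype F] in
private theorem om_mem_sc (x : F) : x ∈ om_sc K F ↔ ∃ c : K, algebraMap K F c = x := by
  unfold om_sc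
  rw [mem_image]
  exact ⟨fun ⟨c, _, hc⟩ => ⟨c, hc⟩, fun ⟨c, hc⟩ => ⟨c, mem_univ c, hc⟩⟩

/-- `PH` as a product over all elements -/
private theorem om_PH (A : Finset F) : PH A = ∏ x : F, (X - C x) ^ (if x ∈ A then 1 else 0) := by
  unfold PH
  have h1 : ∀ x : F, (X - C x) ^ (if x ∈ A then 1 else 0) = if x ∈ A then (X - C x) else 1 := by
    intro x
    split_ifs
    · rw [pow_one]
    · rw [pow_zero]
  rw [prod_congr rfl fun x _ => h1 x, prod_ite_mem, univ_inter]

omit [Field F] in
private theorem om_card (A : Finset F) : ∑ x : F, (if x ∈ A then 1 else 0) = A.card := by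
  rw [sum_ite_mem, univ_inter, sum_const, smul_eq_mul, mul_one]

private theorem om_K : ∏ x : F, (X - C x) ^ (if x ∈ om_sc K F then 1 else 0) =
    X ^ Fintype.card K - X := by
  rw [← om_PH]
  unfold PH om_sc
  rw [prod_image fun a _ b _ h => (algebraMap K F).injective h]
  have h3 := congrArg (Polynomial.map (algebraMap K F)) (om_univ K)
  rw [Polynomial.map_prod, Polynomial.map_sub, Polynomial.map_pow, map_X] at h3
  rw [← h3]
  refine prod_congr rfl fun x _ => ?_
  rw [Polynomial.map_sub, map_X, map_C]

private theorem om_el (U : Submodule K F) (k : ℕ) (hU : Module.finrank K U = k) :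
    (el U).card = Fintype.card K ^ k := by
  have h1 : (el U).card = Fintype.card U := by
    rw [← Fintype.card_coe]
    exact Fintype.card_congr (Equiv.subtypeEquivRight fun x => om_mem_el U x)
  rw [h1, Module.card_eq_pow_finrank (K := K) (V := U), hU]

omit [Fintype K] in
private theorem om_two {U : Submodule K F} (hU : Module.finrank K U ≤ 1) (h1 : (1 : F) ∈ U)
    {x : F} (hx : x ∈ U) : ∃ c : K, algebraMap K F c = x := by
  rw [finrank_le_one_iff] at hU
  obtain ⟨v, hv⟩ := hU
  obtain ⟨a, ha⟩ := hv ⟨1, h1⟩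
  obtain ⟨b, hb⟩ := hv ⟨x, hx⟩
  have ha' : a • (v : F) = 1 := congrArg Subtype.val ha
  have hb' : b • (v : F) = x := congrArg Subtype.val hb
  have ha0 : a ≠ 0 := by
    rintro rfl
    rw [zero_smul] at ha'
    exact zero_ne_one ha'
  refine ⟨b * a⁻¹, ?_⟩
  rw [Algebra.algebraMap_eq_smul_one, ← ha', smul_smul, mul_assoc, inv_mul_cancel₀ ha0, mul_one,
    hb']

/-- the number of the members which contain `x` -/
private noncomputable def om_S (D : Finset (Submodule K F)) (x : F) : ℕ :=
  ∑ U ∈ D, if x ∈ el U then 1 else 0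

/-- the counting identity at one element -/
private theorem om_cnt {k : ℕ} {D : Finset (Submodule K F)} (hD : Nb k D) (x : F) :
    (if x ∈ hol D then 1 else 0) + om_S D x =
      1 + (if x ∈ om_sc K F then 1 else 0) * Fintype.card K ^ k := by
  obtain ⟨-, h1, h2, h3⟩ := hD
  unfold om_S
  by_cases hx : x ∈ om_sc K F
  · rw [if_pos hx, one_mul]
    rw [om_mem_sc] at hx
    rw [if_pos ((om_mem_hol D x).2 (Or.inl hx))]
    obtain ⟨c, rfl⟩ := hx
    have h4 : ∀ U ∈ D, (if algebraMap K F c ∈ el U then 1 else 0) = 1 := by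
      intro U hU
      rw [if_pos]
      rw [om_mem_el, Algebra.algebraMap_eq_smul_one]
      exact U.smul_mem c (h1 U hU).1
    rw [sum_congr rfl h4, sum_const, smul_eq_mul, mul_one, h3]
  · rw [if_neg hx, zero_mul, add_zero]
    rw [om_mem_sc] at hx
    by_cases h0 : ∀ U ∈ D, x ∉ U
    · rw [if_pos ((om_mem_hol D x).2 (Or.inr h0))]
      have h4 : ∀ U ∈ D, (if x ∈ el U then 1 else 0) = 0 := by
        intro U hU
        rw [if_neg]
        rw [om_mem_el]
        exact h0 U hU
      rw [sum_congr rfl h4, sum_const_zero, add_zero]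
    · rw [if_neg (fun h => ((om_mem_hol D x).1 h).elim hx h0), zero_add]
      push Not at h0
      obtain ⟨U, hU, hxU⟩ := h0
      rw [sum_eq_single_of_mem U hU, if_pos ((om_mem_el U x).2 hxU)]
      intro W hW hne
      rw [if_neg]
      rw [om_mem_el]
      intro hxW
      exact hx (om_two (h2 W hW U hU hne) ⟨(h1 W hW).1, (h1 U hU).1⟩ ⟨hxW, hxU⟩)

end om

theorem tOm : S_Om := by
  intro K F _ _ _ _ _ k D hk hD
  have hD' := hD
  obtain ⟨h0, h1, h2, h3⟩ := hD
  refine ⟨?_, ?_⟩
  · have e2 : ∏ U ∈ D, PH (el U) = ∏ x : F, (X - C x) ^ om_S D x := by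
      rw [prod_congr rfl fun U _ => om_PH (el U), prod_comm]
      refine prod_congr rfl fun x _ => ?_
      unfold om_S
      rw [prod_pow_eq_pow_sum]
    rw [om_PH (hol D), e2, ← prod_mul_distrib]
    have e4 : ∀ x : F, (X - C x) ^ (if x ∈ hol D then 1 else 0) * (X - C x) ^ om_S D x =
        ((X - C x) ^ (if x ∈ om_sc K F then 1 else 0)) ^ Fintype.card K ^ k * (X - C x) := by
      intro x
      rw [← pow_add, om_cnt hD' x, ← pow_mul, ← pow_succ, add_comm 1]
    rw [prod_congr rfl fun x _ => e4 x, prod_mul_distrib, prod_pow, om_K, om_univ F, h0]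
  · -- counting
    have e1 : ∑ x : F, ((if x ∈ hol D then 1 else 0) + om_S D x) =
        ∑ x : F, (1 + (if x ∈ om_sc K F then 1 else 0) * Fintype.card K ^ k) :=
      sum_congr rfl fun x _ => om_cnt hD' x
    have e3 : ∑ x : F, om_S D x = Fintype.card K ^ k * Fintype.card K ^ k := by
      unfold om_S
      rw [sum_comm]
      have e4 : ∀ U ∈ D, ∑ x : F, (if x ∈ el U then 1 else 0) = Fintype.card K ^ k := by
        intro U hU
        rw [om_card]
        exact om_el U k (h1 U hU).2
      rw [sum_congr rfl e4, sum_const, smul_eq_mul, h3]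
    have e4 : (om_sc K F).card = Fintype.card K := by
      unfold om_sc
      rw [card_image_of_injective _ (algebraMap K F).injective, card_univ]
    rw [sum_add_distrib, sum_add_distrib, om_card, e3, ← sum_mul, om_card, e4, sum_const,
      card_univ, h0, smul_eq_mul, mul_one, two_mul, pow_add] at e1
    have e5 : Fintype.card K ^ (k + 1) = Fintype.card K * Fintype.card K ^ k := by
      rw [pow_succ, mul_comm]
    omega

end Pool.Agent.MP8b
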