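import Pool.Agent.Lib.MP_8b575b_co.Cyc.Spec

set_option autoImplicit false

namespace Pool.Agent.MP8b

open Polynomial Finset

open scoped Classical

private theorem Orb_mm {K F : Type} [Field K] [Field F] [Algebra K F] (a b : F)
    (U : Submodule K F) : (U.map (LinearMap.mulLeft K a)).map (LinearMap.mulLeft K b) =
      U.map (LinearMap.mulLeft K (b * a)) := by
  rw [LinearMap.mulLeft_mul, Submodule.map_comp]

private theorem Orb_one {K F : Type} [Field K] [Field F] [Algebra K F]
    (U : Submodule K F) : U.map (LinearMap.mulLeft K (1 : F)) = U := by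
  rw [LinearMap.mulLeft_one, Submodule.map_id]

private theorem Orb_scal {K F : Type} [Field K] [Field F] [Algebra K F] (U W : Submodule K F)
    (h : Module.finrank K ↥(U ⊓ W) ≤ 1) [FiniteDimensional K F] (hU : (1 : F) ∈ U)
    (hW : (1 : F) ∈ W) (x : F) (hxU : x ∈ U) (hxW : x ∈ W) : ∃ c : K, algebraMap K F c = x := by
  obtain ⟨v, hv⟩ := finrank_le_one_iff.mp h
  obtain ⟨c, hc⟩ := hv ⟨1, hU, hW⟩
  obtain ⟨d, hd⟩ := hv ⟨x, hxU, hxW⟩
  have hc' : c • (v : F) = 1 := congrArg Subtype.val hc
  have hd' : d • (v : F) = x := congrArg Subtype.val hd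
  have hc0 : c ≠ 0 := by
    rintro rfl
    rw [zero_smul] at hc'
    exact zero_ne_one hc'
  refine ⟨d * c⁻¹, ?_⟩
  rw [Algebra.algebraMap_eq_smul_one, ← hc', smul_smul, mul_assoc, inv_mul_cancel₀ hc0, mul_one,
    hd']

private theorem Orb_el {K F : Type} [Field K] [Fintype K] [Field F] [Fintype F] [Algebra K F]
    (U : Submodule K F) (k : ℕ) (h : Module.finrank K U = k) :
    (el U).card = Fintype.card K ^ k := by
  rw [← h, ← Module.card_eq_pow_finrank (K := K) (V := U), el, ← Fintype.card_subtype]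

private theorem Orb_free {K F : Type} [Field K] [Fintype K] [Field F] [Fintype F] [Algebra K F]
    (D : Finset (Submodule K F))
    (hD : ∀ a : F, a ≠ 0 → ∀ U ∈ D, U.map (LinearMap.mulLeft K a) ∈ D)
    (hst : ∀ U ∈ D, ∀ a : F, a ≠ 0 → U.map (LinearMap.mulLeft K a) = U →
      ∃ c : K, algebraMap K F c = a) :
    ∃ m : ℕ, D.card = m * ((Fintype.card F - 1) / (Fintype.card K - 1)) := by
  let _ : MulAction Fˣ {U // U ∈ D} :=
    { smul := fun a U => ⟨U.1.map (LinearMap.mulLeft K (a : F)), hD a a.ne_zero U.1 U.2⟩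
      one_smul := by
        intro U
        apply Subtype.ext
        change U.1.map (LinearMap.mulLeft K ((1 : Fˣ) : F)) = U.1
        rw [Units.val_one, Orb_one]
      mul_smul := by
        intro a b U
        apply Subtype.ext
        change U.1.map (LinearMap.mulLeft K ((a * b : Fˣ) : F)) =
          (U.1.map (LinearMap.mulLeft K (b : F))).map (LinearMap.mulLeft K (a : F))
        rw [Units.val_mul, Orb_mm] }
  have hsm : ∀ (a : Fˣ) (U : {U // U ∈ D}), a • U = U ↔
      U.1.map (LinearMap.mulLeft K (a : F)) = U.1 := by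
    intro a U
    constructor
    · intro h
      exact congrArg Subtype.val h
    · intro h
      exact Subtype.ext h
  have key : ∀ U : {U // U ∈ D}, Fintype.card (MulAction.stabilizer Fˣ U) =
      Fintype.card K - 1 := by
    intro U
    rw [← Fintype.card_units]
    symm
    apply Fintype.card_congr
    refine Equiv.ofBijective (fun c : Kˣ => ⟨Units.map (algebraMap K F).toMonoidHom c, ?_⟩) ⟨?_, ?_⟩
    · rw [MulAction.mem_stabilizer_iff, hsm]
      ext y
      simp only [Submodule.mem_map, LinearMap.mulLeft_apply]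
      have hval : ((Units.map (algebraMap K F).toMonoidHom c : Fˣ) : F) = algebraMap K F c := rfl
      rw [hval]
      constructor
      · rintro ⟨z, hz, rfl⟩
        rw [← Algebra.smul_def]
        exact U.1.smul_mem _ hz
      · intro hy
        refine ⟨(c⁻¹ : Kˣ).1 • y, U.1.smul_mem _ hy, ?_⟩
        rw [← Algebra.smul_def, smul_smul, Units.mul_inv, one_smul]
    · intro c d h
      have h1 := congrArg (fun z : MulAction.stabilizer Fˣ U => ((z : Fˣ) : F)) h
      exact Units.ext ((algebraMap K F).injective h1)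
    · rintro ⟨a, ha⟩
      rw [MulAction.mem_stabilizer_iff, hsm] at ha
      obtain ⟨c, hc⟩ := hst U.1 U.2 a a.ne_zero ha
      have hc0 : c ≠ 0 := by
        rintro rfl
        rw [map_zero] at hc
        exact a.ne_zero hc.symm
      refine ⟨Units.mk0 c hc0, ?_⟩
      apply Subtype.ext
      apply Units.ext
      exact hc
  have h := MulAction.card_eq_sum_card_group_div_card_stabilizer Fˣ {U // U ∈ D}
  rw [Finset.sum_congr rfl (fun ω _ => by rw [key ω.out]), Finset.sum_const, smul_eq_mul,
    Fintype.card_units, Fintype.card_coe] at h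
  exact ⟨_, h⟩

private theorem Orb_sub {K F : Type} [Field K] [Fintype K] [Field F] [Fintype F] [Algebra K F]
    (k : ℕ) (D : Finset (Submodule K F)) (hCy : Cy k D) (U : Submodule K F)
    (hU : U ∈ D) (h1 : (1 : F) ∈ U) (a : F)
    (ha : U.map (LinearMap.mulLeft K a) = U) (haK : ∀ c : K, algebraMap K F c ≠ a) :
    ∀ u ∈ U, u ^ (Fintype.card K ^ k) = u := by
  obtain ⟨hF, hfr, hint, hmul⟩ := hCy
  have hfd : FiniteDimensional K F := inferInstance
  have hau : ∀ u ∈ U, a * u ∈ U := by
    intro u hu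
    have : a * u ∈ U.map (LinearMap.mulLeft K a) := ⟨u, hu, rfl⟩
    rwa [ha] at this
  have haU : a ∈ U := by simpa using hau 1 h1
  have hinvU : ∀ u ∈ U, u ≠ 0 → U.map (LinearMap.mulLeft K u⁻¹) = U := by
    intro u hu hu0
    by_contra hne
    obtain ⟨c, hc⟩ := Orb_scal _ _ (hint _ (hmul _ (inv_ne_zero hu0) U hU) U hU hne)
      ⟨u, hu, by rw [LinearMap.mulLeft_apply, inv_mul_cancel₀ hu0]⟩ h1 a
      ⟨a * u, hau u hu, by
        rw [LinearMap.mulLeft_apply, mul_comm a u, ← mul_assoc, inv_mul_cancel₀ hu0, one_mul]⟩ haU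
    exact haK c hc
  have hdiv : ∀ u ∈ U, u ≠ 0 → ∀ w ∈ U, u⁻¹ * w ∈ U := by
    intro u hu hu0 w hw
    have : u⁻¹ * w ∈ U.map (LinearMap.mulLeft K u⁻¹) := ⟨w, hw, rfl⟩
    rwa [hinvU u hu hu0] at this
  have hinv : ∀ u ∈ U, u ≠ 0 → u⁻¹ ∈ U := by
    intro u hu hu0
    simpa using hdiv u hu hu0 1 h1
  let H : Subgroup Fˣ :=
    { carrier := {u | (u : F) ∈ U}
      mul_mem' := by
        intro x y hx hy
        have h2 := hdiv (x : F)⁻¹ (hinv x hx x.ne_zero) (inv_ne_zero x.ne_zero) y hy
        rw [inv_inv] at h2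
        exact h2
      one_mem' := h1
      inv_mem' := by
        intro x hx
        have := hinv x hx x.ne_zero
        simpa using this }
  have hH : Nat.card H = Fintype.card K ^ k - 1 := by
    rw [← Orb_el U k (hfr U hU), ← Finset.card_erase_of_mem (s := el U) (a := 0) (by simp [el]),
      ← Fintype.card_coe, ← Nat.card_eq_fintype_card]
    apply Nat.card_congr
    refine Equiv.ofBijective (fun x : H => ⟨((x : Fˣ) : F), ?_⟩) ⟨?_, ?_⟩
    · refine Finset.mem_erase.mpr ⟨x.1.ne_zero, ?_⟩
      rw [el, Finset.mem_filter]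
      exact ⟨Finset.mem_univ _, x.2⟩
    · intro x y h
      exact Subtype.ext (Units.ext (congrArg Subtype.val h))
    · rintro ⟨y, hy⟩
      have hy' := Finset.mem_erase.mp hy
      have hy2 := hy'.2
      rw [el, Finset.mem_filter] at hy2
      exact ⟨⟨Units.mk0 y hy'.1, hy2.2⟩, rfl⟩
  have hqk : 1 ≤ Fintype.card K ^ k := Nat.one_le_pow _ _ Fintype.card_pos
  intro u hu
  by_cases hu0 : u = 0
  · rw [hu0, zero_pow (by omega)]
  · have h3 : (⟨Units.mk0 u hu0, hu⟩ : H) ^ Nat.card H = 1 := pow_card_eq_one'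
    rw [hH] at h3
    have h4 := congrArg (fun z : H => ((z : Fˣ) : F)) h3
    simp only [Subgroup.coe_pow, Units.val_pow_eq_pow_val, Units.val_mk0, Subgroup.coe_one,
      Units.val_one] at h4
    obtain ⟨z, hz⟩ : ∃ z, Fintype.card K ^ k = z + 1 := ⟨Fintype.card K ^ k - 1, by omega⟩
    rw [hz] at h4 ⊢
    rw [Nat.add_sub_cancel] at h4
    rw [pow_succ, h4, one_mul]

theorem tOrb : S_Cnt → S_Orb := by
  intro hCnt K F _ _ _ _ _ k D hk hCy
  have hq2 : 2 ≤ Fintype.card K := Fintype.one_lt_card
  have hqk : 2 ≤ Fintype.card K ^ k :=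
    hq2.trans (Nat.le_self_pow (by omega) _)
  have hCy0 := hCy
  obtain ⟨hF, hfr, hint, hmul⟩ := hCy
  let P : Submodule K F → Prop := fun U => ∀ a : F, a ≠ 0 →
    U.map (LinearMap.mulLeft K a) = U → ∃ c : K, algebraMap K F c = a
  have hD1 : Cy k (D.filter P) := by
    refine ⟨hF, fun U hU => hfr U (Finset.mem_filter.mp hU).1,
      fun U hU W hW => hint U (Finset.mem_filter.mp hU).1 W (Finset.mem_filter.mp hW).1, ?_⟩
    intro b hb U hU
    have hU' := Finset.mem_filter.mp hU
    refine Finset.mem_filter.mpr ⟨hmul b hb U hU'.1, ?_⟩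
    intro a ha h
    apply hU'.2 a ha
    have h2 := congrArg (fun W : Submodule K F => W.map (LinearMap.mulLeft K b⁻¹)) h
    simp only [Orb_mm] at h2
    rw [show b⁻¹ * (a * b) = a by field_simp, inv_mul_cancel₀ hb, Orb_one] at h2
    exact h2
  obtain ⟨m, hm⟩ := Orb_free (D.filter P) hD1.2.2.2 (fun U hU => (Finset.mem_filter.mp hU).2)
  obtain ⟨hc1, -⟩ := hCnt K F k (D.filter P) (by omega) hD1
  refine ⟨m, ((D.filter fun U => ¬ P U).filter fun U => (1 : F) ∈ U).card, ?_, ?_⟩
  · -- at most one
    rw [Finset.card_le_one]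
    have hroots : ∀ U ∈ (D.filter fun U => ¬ P U).filter (fun U => (1 : F) ∈ U),
        el U = (X ^ (Fintype.card K ^ k) - X : F[X]).roots.toFinset := by
      intro U hU
      have hU1 := Finset.mem_filter.mp hU
      have hU2 := Finset.mem_filter.mp hU1.1
      have hP := hU2.2
      simp only [P, not_forall, not_exists] at hP
      obtain ⟨a, ha0, ha, haK⟩ := hP
      have hpow := Orb_sub k D hCy0 U hU2.1 hU1.2 a ha haK
      have hne : (X ^ (Fintype.card K ^ k) - X : F[X]) ≠ 0 :=
        FiniteField.X_pow_card_sub_X_ne_zero F (by omega)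
      apply Finset.eq_of_subset_of_card_le
      · intro u hu
        rw [el, Finset.mem_filter] at hu
        rw [Multiset.mem_toFinset, mem_roots hne, IsRoot.def, eval_sub, eval_pow, eval_X,
          hpow u hu.2, sub_self]
      · rw [Orb_el U k (hfr U hU2.1)]
        refine (Multiset.toFinset_card_le _).trans ((card_roots' _).trans ?_)
        rw [FiniteField.X_pow_card_sub_X_natDegree_eq F (by omega)]
    intro U hU W hW
    have h := (hroots U hU).trans (hroots W hW).symm
    ext x
    have h2 : x ∈ el U ↔ x ∈ el W := by rw [h]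
    simpa [el] using h2
  · have hsplit : (D.filter fun U => (1 : F) ∈ U).card =
        ((D.filter P).filter fun U => (1 : F) ∈ U).card +
        ((D.filter fun U => ¬ P U).filter fun U => (1 : F) ∈ U).card := by
      rw [← Finset.card_filter_add_card_filter_not (s := D.filter fun U => (1 : F) ∈ U) (p := P)]
      congr 1
      · rw [Finset.filter_comm]
      · rw [Finset.filter_comm]
    rw [hsplit]
    congr 1
    have h1 : (Fintype.card F - 1) / (Fintype.card K - 1) =
        (∑ i ∈ range k, Fintype.card K ^ i) * (Fintype.card K ^ k + 1) := by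
      rw [hF]
      apply Nat.div_eq_of_eq_mul_left (by omega)
      obtain ⟨z, hz⟩ : ∃ z, Fintype.card K = z + 1 := ⟨Fintype.card K - 1, by omega⟩
      have hg : (∑ i ∈ range k, Fintype.card K ^ i) * (Fintype.card K - 1) =
          Fintype.card K ^ k - 1 := by
        have h5 := geom_sum_mul_add (Fintype.card K - 1) k
        rw [Nat.sub_add_cancel (by omega)] at h5
        omega
      rw [mul_assoc, mul_comm (Fintype.card K ^ k + 1), ← mul_assoc, hg]
      obtain ⟨y, hy⟩ : ∃ y, Fintype.card K ^ k = y + 1 := ⟨Fintype.card K ^ k - 1, by omega⟩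
      rw [two_mul, pow_add, hy, Nat.add_sub_cancel]
      have : (y + 1) * (y + 1) = y * (y + 1 + 1) + 1 := by ring
      rw [this, Nat.add_sub_cancel]
    rw [h1, hc1, ← mul_assoc] at hm
    exact Nat.eq_of_mul_eq_mul_right (by omega) hm

end Pool.Agent.MP8b
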