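import Pool.Agent.Lib.MP_8b575b_co.Cyc.Spec

set_option autoImplicit false

namespace Pool.Agent.MP8b

open Polynomial Finset

open scoped Classical

private theorem Red_field {K V : Type} [Field K] [AddCommGroup V] [Module K V]
    (G : Subgroup (V ≃ₗ[K] V)) (hcomm : ∀ g ∈ G, ∀ h ∈ G, g * h = h * g)
    (htr : ∀ v w : V, v ≠ 0 → w ≠ 0 → ∃ g ∈ G, ∃ c : K, g v = c • w)
    (v₀ : V) (hv₀ : v₀ ≠ 0) :
    ∃ (F : Type) (_ : Field F) (_ : Algebra K F) (e : F ≃ₗ[K] V), ∀ a : F, a ≠ 0 →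
      ∃ g ∈ G, ∃ c : K, c ≠ 0 ∧ ∀ x, e (a * x) = c • g (e x) := by
  let R : Subalgebra K (Module.End K V) :=
    Subalgebra.centralizer K {ρ | ∃ g ∈ G, ρ = (g : V →ₗ[K] V)}
  have hmem : ∀ ρ : Module.End K V, ρ ∈ R ↔ ∀ g ∈ G, ∀ x, g (ρ x) = ρ (g x) := by
    intro ρ
    rw [Subalgebra.mem_centralizer_iff]
    constructor
    · intro h g hg x
      exact LinearMap.congr_fun (h _ ⟨g, hg, rfl⟩) x
    · rintro h _ ⟨g, hg, rfl⟩
      exact LinearMap.ext fun x => h g hg x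
  -- all vectors
  have hvec : ∀ w : V, w ≠ 0 → ∃ g ∈ G, ∃ c : K, c ≠ 0 ∧ w = c • g v₀ := by
    intro w hw
    obtain ⟨g, hg, c, hc⟩ := htr v₀ w hv₀ hw
    have hc0 : c ≠ 0 := by
      rintro rfl
      rw [zero_smul] at hc
      exact hv₀ (g.map_eq_zero_iff.mp hc)
    exact ⟨g, hg, c⁻¹, inv_ne_zero hc0, by rw [hc, smul_smul, inv_mul_cancel₀ hc0, one_smul]⟩
  have hgc : ∀ g ∈ G, ∀ h ∈ G, ∀ x, g (h x) = h (g x) := by
    intro g hg h hh x
    exact LinearEquiv.congr_fun (hcomm g hg h hh) x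
  have hgR : ∀ g ∈ G, ∀ c : K, c • (g : V →ₗ[K] V) ∈ R := by
    intro g hg c
    rw [hmem]
    intro h hh x
    simp only [LinearMap.smul_apply, LinearEquiv.coe_coe, map_smul]
    rw [hgc h hh g hg]
  have hzero : ∀ ρ ∈ R, ρ v₀ = 0 → ρ = 0 := by
    intro ρ hρ h0
    rw [hmem] at hρ
    refine LinearMap.ext fun w => ?_
    by_cases hw : w = 0
    · rw [hw, map_zero, map_zero]
    · obtain ⟨g, hg, c, hc, rfl⟩ := hvec w hw
      rw [map_smul, ← hρ g hg, h0, map_zero, smul_zero, LinearMap.zero_apply]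
  have hform : ∀ ρ ∈ R, ρ ≠ 0 → ∃ g ∈ G, ∃ c : K, c ≠ 0 ∧ ρ = c • (g : V →ₗ[K] V) := by
    intro ρ hρ h0
    have h1 : ρ v₀ ≠ 0 := fun h => h0 (hzero ρ hρ h)
    obtain ⟨g, hg, c, hc, hgc'⟩ := hvec _ h1
    refine ⟨g, hg, c, hc, ?_⟩
    have h2 : ρ - c • (g : V →ₗ[K] V) ∈ R := R.sub_mem hρ (hgR g hg c)
    have h3 := hzero _ h2 (by
      rw [LinearMap.sub_apply, LinearMap.smul_apply, LinearEquiv.coe_coe, hgc', sub_self])
    exact sub_eq_zero.mp h3
  have hfield : IsField R := by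
    refine ⟨⟨0, 1, ?_⟩, ?_, ?_⟩
    · intro h
      have h1 : (0 : Module.End K V) v₀ = (1 : Module.End K V) v₀ :=
        LinearMap.congr_fun (congrArg Subtype.val h) v₀
      rw [LinearMap.zero_apply, Module.End.one_apply] at h1
      exact hv₀ h1.symm
    · rintro ⟨ρ, hρ⟩ ⟨σ, hσ⟩
      apply Subtype.ext
      change ρ * σ = σ * ρ
      by_cases hρ0 : ρ = 0
      · rw [hρ0, zero_mul, mul_zero]
      by_cases hσ0 : σ = 0
      · rw [hσ0, zero_mul, mul_zero]
      obtain ⟨g, hg, c, hc, rfl⟩ := hform ρ hρ hρ0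
      obtain ⟨h, hh, d, hd, rfl⟩ := hform σ hσ hσ0
      refine LinearMap.ext fun x => ?_
      simp only [Module.End.mul_apply, LinearMap.smul_apply, LinearEquiv.coe_coe, map_smul]
      rw [hgc g hg h hh, smul_comm]
    · rintro ⟨ρ, hρ⟩ h0
      have hρ0 : ρ ≠ 0 := fun h => h0 (Subtype.ext h)
      obtain ⟨g, hg, c, hc, rfl⟩ := hform ρ hρ hρ0
      refine ⟨⟨c⁻¹ • ((g⁻¹ : V ≃ₗ[K] V) : V →ₗ[K] V), hgR _ (G.inv_mem hg) _⟩, ?_⟩
      apply Subtype.ext
      change (c • (g : V →ₗ[K] V)) * (c⁻¹ • ((g⁻¹ : V ≃ₗ[K] V) : V →ₗ[K] V)) = 1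
      refine LinearMap.ext fun x => ?_
      have h1 : g ((g⁻¹ : V ≃ₗ[K] V) x) = x := LinearEquiv.apply_symm_apply g x
      simp only [Module.End.mul_apply, LinearMap.smul_apply, LinearEquiv.coe_coe, map_smul,
        Module.End.one_apply]
      rw [h1, smul_smul, inv_mul_cancel₀ hc, one_smul]
  let e : R ≃ₗ[K] V := LinearEquiv.ofBijective
    { toFun := fun ρ => ρ.1 v₀
      map_add' := fun ρ σ => rfl
      map_smul' := fun c ρ => rfl } ⟨by
        intro ρ σ h
        have h' : ρ.1 v₀ = σ.1 v₀ := h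
        have h2 := hzero (ρ.1 - σ.1) (R.sub_mem ρ.2 σ.2) (by
          rw [LinearMap.sub_apply, h', sub_self])
        exact Subtype.ext (sub_eq_zero.mp h2), by
        intro w
        by_cases hw : w = 0
        · exact ⟨0, hw.symm⟩
        · obtain ⟨g, hg, c, hc, rfl⟩ := hvec w hw
          exact ⟨⟨c • (g : V →ₗ[K] V), hgR g hg c⟩, rfl⟩⟩
  refine ⟨R, hfield.toField, R.algebra, e, ?_⟩
  rintro ⟨ρ, hρ⟩ h0
  have hρ0 : ρ ≠ 0 := fun h => h0 (Subtype.ext h)
  obtain ⟨g, hg, c, hc, rfl⟩ := hform ρ hρ hρ0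
  exact ⟨g, hg, c, hc, fun x => rfl⟩

theorem tRed : S_Fie → S_Red := by
  intro hFie K V _ _ _ _ k hk hV G hcomm htr D hfr hint hmul
  have hpos : 0 < Module.finrank K V := by omega
  have hfd : FiniteDimensional K V := Module.finite_of_finrank_pos hpos
  have hnt : Nontrivial V := Module.nontrivial_of_finrank_pos hpos
  obtain ⟨v₀, hv₀⟩ := exists_ne (0 : V)
  obtain ⟨F, fF, aF, e, he⟩ := Red_field G hcomm htr v₀ hv₀
  have hfinV : Finite V := Module.finite_of_finite K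
  have hfinF : Finite F := Finite.of_injective e e.injective
  let _ : Fintype F := Fintype.ofFinite F
  have hcardF : Fintype.card F = Fintype.card K ^ (2 * k) := by
    rw [Module.card_eq_pow_finrank (K := K) (V := F), e.finrank_eq, hV]
  have hfrc : ∀ U : Submodule K V, Module.finrank K (U.comap (e : F →ₗ[K] V)) =
      Module.finrank K U := fun U => (e.ofSubmodule' U).finrank_eq
  have hinj : Function.Injective (fun U : Submodule K V => U.comap (e : F →ₗ[K] V)) :=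
    Submodule.comap_injective_of_surjective e.surjective
  have hCy : Cy k (D.image fun U => U.comap (e : F →ₗ[K] V)) := by
    refine ⟨hcardF, ?_, ?_, ?_⟩
    · intro U' hU'
      obtain ⟨U, hU, rfl⟩ := Finset.mem_image.mp hU'
      rw [hfrc, hfr U hU]
    · intro U' hU' W' hW' hne
      obtain ⟨U, hU, rfl⟩ := Finset.mem_image.mp hU'
      obtain ⟨W, hW, rfl⟩ := Finset.mem_image.mp hW'
      rw [← Submodule.comap_inf, hfrc]
      exact hint U hU W hW (fun h => hne (by rw [h]))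
    · intro a ha U' hU'
      obtain ⟨U, hU, rfl⟩ := Finset.mem_image.mp hU'
      obtain ⟨g, hg, c, hc, hgx⟩ := he a ha
      refine Finset.mem_image.mpr ⟨U.map (g : V →ₗ[K] V), hmul g hg U hU, ?_⟩
      ext y
      simp only [Submodule.mem_comap, Submodule.mem_map, LinearEquiv.coe_coe,
        LinearMap.mulLeft_apply]
      constructor
      · rintro ⟨u, hu, huy⟩
        refine ⟨e.symm (c⁻¹ • u), ?_, ?_⟩
        · rw [LinearEquiv.apply_symm_apply]
          exact U.smul_mem _ hu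
        · apply e.injective
          rw [hgx, LinearEquiv.apply_symm_apply, map_smul, smul_smul, mul_inv_cancel₀ hc,
            one_smul, huy]
      · rintro ⟨x, hx, rfl⟩
        exact ⟨c • e x, U.smul_mem _ hx, by rw [hgx, map_smul]⟩
  have h := hFie K F k _ hk hCy
  rwa [Finset.card_image_of_injective _ hinj] at h

end Pool.Agent.MP8b
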