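import Mathlib

/-!
# MP_8b575b_co: codes with an abelian group transitive on the points (cyclic codes)

THEOREM. Let `q` be a prime power, `k ≥ 3`, `V` a space of dimension `2 k` over the field with `q` elements, `G` a
commutative group of linear automorphisms, transitive on the points (for example a Singer cycle). Then a
`G`-invariant set of `k`-dimensional subspaces, pairwise meeting in dimension at most one, has at most
`q ^ (2 k) - 1` elements.

The proofs are complete in the docstrings; every module is independent (used statements are hypotheses):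
file `Cyc/<Name>.lean` (import this file only), namespace `Pool.Agent.MP8b`, `theorem t<Name> : S_X → .. → S_<Name>`
(hypotheses in the order of the docstring), all other declarations `private`.
`K` is the field with `q = Fintype.card K` elements, `F` an extension with `q ^ (2 k)` elements.
-/

set_option autoImplicit false

namespace Pool.Agent.MP8b

open Polynomial Finset

open scoped Classical

/-- The monic polynomial with the simple roots `A`. -/
noncomputable def PH {F : Type} [Field F] (A : Finset F) : F[X] := ∏ u ∈ A, (X - C u)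

/-- The elements of a subspace as a finite set. -/
noncomputable def el {K F : Type} [Field K] [Field F] [Fintype F] [Algebra K F]
    (U : Submodule K F) : Finset F := univ.filter fun x => x ∈ U

/-- The elements which are scalars or belong to no member of `D`. -/
noncomputable def hol {K F : Type} [Field K] [Field F] [Fintype F] [Algebra K F]
    (D : Finset (Submodule K F)) : Finset F :=
  univ.filter fun x => (∃ c : K, algebraMap K F c = x) ∨ ∀ U ∈ D, x ∉ U

/-- The comparison polynomial. -/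
noncomputable def Hd {F : Type} [Field F] (q k : ℕ) (d : F) : F[X] :=
  X ^ q ^ (k + 1) - X + C d * ((X ^ q ^ (k - 1) - X) * (X ^ q ^ k - X ^ q ^ (k - 1)) ^ (q - 1))

/-- `D` is a set of `q ^ k` subspaces of dimension `k` containing `1`, pairwise meeting in `K`. -/
def Nb {K F : Type} [Field K] [Fintype K] [Field F] [Fintype F] [Algebra K F] (k : ℕ)
    (D : Finset (Submodule K F)) : Prop :=
  Fintype.card F = Fintype.card K ^ (2 * k) ∧ (∀ U ∈ D, (1 : F) ∈ U ∧ Module.finrank K U = k) ∧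
  (∀ U ∈ D, ∀ W ∈ D, U ≠ W → Module.finrank K ↥(U ⊓ W) ≤ 1) ∧ D.card = Fintype.card K ^ k

/-- **Lin** (100 lines). The polynomial of a subspace is linearized.

Proof. Induction on `k` (for all `U`), with the stronger claim: `L = PH (el U)` is `K`-linear as a function
`F → F` (`L.eval (x + y) = L.eval x + L.eval y`, `L.eval (c x) = c L.eval x` for `c ∈ K`), `L = X ^ q ^ k + R` with
`deg R ≤ q ^ (k - 1)` (for `k ≥ 1`) and `L' = C c`. `k = 0`: `L = X`. Step: `U = U' ⊕ K w`, `w ∉ U'`, `L' = PH (el U')`,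
`b = L'.eval w ≠ 0`. Then `L = ∏_{c ∈ K} ∏_{u ∈ U'} (X - u - c w)`, and `∏_{u ∈ U'} (X - u - c w) = L'(X - c w)`. As polynomials
`L'(X - c w) = L'(X) - c b`: both sides are monic of the same degree `q ^ (k - 1)` with the same `q ^ (k - 1)` roots
`u + c w` (linearity of the function). So `L = ∏_c (L' - c b) = L' ^ q - b ^ (q - 1) L'` (from `∏_{c ∈ K} (Y - c) = Y ^ q - Y`,
`FiniteField.prod_X_sub_C_eq` or similar, with `Y = L' / b`, times `b ^ q`). This is a linear function, its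
derivative is `- b ^ (q - 1) (L')'`, a constant, and `L' ^ q = X ^ q ^ k + R' ^ q` (`q` is a power of the
characteristic), `deg (R' ^ q) ≤ q * q ^ (k - 2) = q ^ (k - 1)` for `k ≥ 2`, and `R' = 0` for `k = 1`. -/
def S_Lin : Prop :=
  ∀ (K F : Type) [Field K] [Fintype K] [Field F] [Fintype F] [Algebra K F] (U : Submodule K F)
    (k : ℕ), 1 ≤ k → Module.finrank K U = k → ∃ (R : F[X]) (c : F),
      R.natDegree ≤ Fintype.card K ^ (k - 1) ∧ PH (el U) = X ^ Fintype.card K ^ k + R ∧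
      derivative (PH (el U)) = C c

/-- **Om** (100 lines). The product identity and the number of the holes.

Proof. Let `S x` be the number of the `U ∈ D` with `x ∈ U`. If `x` is a scalar then `S x = q ^ k` (`1 ∈ U`), and `x` is in
`hol D`. If `x` is not a scalar, `S x ≤ 1` (two members containing `1` and `x` meet in dimension at least two), and `S x = 0`
iff `x ∈ hol D`. So `[x ∈ hol D] + S x = 1 + q ^ k [x scalar]`. Hence
`PH (hol D) * ∏_U PH (el U) = ∏_{x ∈ F} (X - x) ^ ([x ∈ hol D] + S x) = ∏_{x ∈ F} (X - x) * (∏_{c ∈ K} (X - c)) ^ q ^ k`,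
`∏_{x ∈ F} (X - x) = X ^ (q ^ (2 k)) - X` (`FiniteField.X_pow_card_sub_X..`), `∏_{c ∈ K} (X - c) = X ^ q - X` (mapped to
`F[X]`). Degrees: `#(hol D) + q ^ k q ^ k = q q ^ k + q ^ (2 k)` (`PH (el U)` has degree `#U = q ^ k`). -/
def S_Om : Prop :=
  ∀ (K F : Type) [Field K] [Fintype K] [Field F] [Fintype F] [Algebra K F] (k : ℕ)
    (D : Finset (Submodule K F)), 1 ≤ k → Nb k D →
    PH (hol D) * ∏ U ∈ D, PH (el U) =
      (X ^ Fintype.card K - X) ^ Fintype.card K ^ k * (X ^ Fintype.card K ^ (2 * k) - X) ∧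
    (hol D).card = Fintype.card K ^ (k + 1)

/-- **Asy** (100 lines, uses `S_Lin`, `S_Om`). The behaviour at infinity.

Proof. `H = PH (hol D)`, `L U = PH (el U) = X ^ q ^ k + R U`, `L U' = c U`, `Π = ∏ L U`, of degree `q ^ k q ^ k = q ^ (2 k)`,
`Ω = (X ^ q - X) ^ q ^ k * (X ^ q ^ (2 k) - X)`, `H Π = Ω`, `Ω' = - (X ^ q - X) ^ q ^ k` (characteristic `p`, `q ^ k = 0` in `F`).
`X ^ q ^ k Π' = ∑_U c U (L U - R U) ∏_{W ≠ U} L W = - a Π - ρ` with `a = - ∑ c U`,
`ρ = ∑_U c U R U ∏_{W ≠ U} L W`, `deg ρ ≤ q ^ (k - 1) + q ^ (2 k) - q ^ k`. So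
`(X ^ q ^ k H' - a H) Π = X ^ q ^ k Ω' - H (X ^ q ^ k Π' + a Π) = X ^ q ^ k Ω' + H ρ`. The degree of the right side is at
most the maximum of `q ^ k + q ^ (k + 1)` and `q ^ (k + 1) + q ^ (k - 1) + q ^ (2 k) - q ^ k`, i.e. the second number
(`q ^ k ≤ q ^ (2 k) - q ^ k` as `k ≥ 1`, `q ≥ 2`); subtract `deg Π = q ^ (2 k)` (`natDegree_mul`; if the left factor is zero
there is nothing to prove). -/
def S_Asy : Prop :=
  ∀ (K F : Type) [Field K] [Fintype K] [Field F] [Fintype F] [Algebra K F] (k : ℕ)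
    (D : Finset (Submodule K F)), 1 ≤ k → Nb k D → ∃ a : F,
    (X ^ Fintype.card K ^ k * derivative (PH (hol D)) - C a * PH (hol D)).natDegree ≤
      Fintype.card K ^ (k + 1) - Fintype.card K ^ k + Fintype.card K ^ (k - 1)

/-- **Hda** (80 lines). The comparison polynomial at infinity.

Proof. `B = (X ^ q ^ (k - 1) - X) E ^ (q - 1)`, `E = X ^ q ^ k - X ^ q ^ (k - 1)`, has degree at most
`q ^ (k - 1) + (q - 1) q ^ k = q ^ (k + 1) - q ^ k + q ^ (k - 1) < q ^ (k + 1)`. Derivative: `q ^ k`, `q ^ (k - 1)`, `q ^ (k + 1)` are `0`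
in `F` (`k ≥ 2`), so `E' = 0`, `(Hd)' = - 1 - d E ^ (q - 1)`. `X ^ q ^ k (Hd)' + d Hd = - X ^ q ^ k + d (X ^ q ^ (k + 1) -
X ^ q ^ k E ^ (q - 1)) - d X + d ^ 2 B`. With `Y = X ^ q ^ (k - 1)`: `X ^ q ^ (k + 1) - X ^ q ^ k E ^ (q - 1) =
Y ^ q ^ 2 - Y ^ q (Y ^ q - Y) ^ (q - 1)`, and `Y ^ (q ^ 2 - q) - (Y ^ q - Y) ^ (q - 1)` has degree at most
`q ^ 2 - 2 q + 1` in `Y` (`(Y ^ q - Y) ^ (q - 1) = Y ^ (q - 1) (Y ^ (q - 1) - 1) ^ (q - 1)`, and `Z ^ m - (Z - 1) ^ m` has degree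
at most `m - 1`; `m = q - 1`, `Z = Y ^ (q - 1)`), so the difference has degree at most `q ^ 2 - q + 1` in `Y`, i.e.
`q ^ (k - 1) (q ^ 2 - q + 1) = q ^ (k + 1) - q ^ k + q ^ (k - 1)` in `X`. -/
def S_Hda : Prop :=
  ∀ (F : Type) [Field F] (p e q k : ℕ) [CharP F p], p.Prime → 1 ≤ e → q = p ^ e → 2 ≤ k →
    ∀ d : F, (Hd q k d).Monic ∧ (Hd q k d).natDegree = q ^ (k + 1) ∧
      (X ^ q ^ k * derivative (Hd q k d) + C d * Hd q k d).natDegree ≤
        q ^ (k + 1) - q ^ k + q ^ (k - 1)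

/-- **Hdi** (80 lines). The symmetries of the comparison polynomial.

Proof. (1) `Polynomial.reflect_mul`, `reflect` of a power by induction: with `reflect (q ^ (k - 1) + 1)` the factor
`X ^ q ^ (k - 1) - X` goes to `X - X ^ q ^ (k - 1)`, with `reflect (q ^ k + q ^ (k - 1))` the polynomial `E` goes to `- E`, and
`(- 1) ^ (q - 1) = 1` in `F` (`q` odd, or the characteristic is two);
`q ^ (k - 1) + 1 + (q - 1) (q ^ k + q ^ (k - 1)) = q ^ (k + 1) + 1`. (2) `(X + c) ^ q ^ j = X ^ q ^ j + c`. -/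
def S_Hdi : Prop :=
  ∀ (F : Type) [Field F] (p e q k : ℕ) [CharP F p], p.Prime → 1 ≤ e → q = p ^ e → 2 ≤ k →
    ∀ d : F, reflect (q ^ (k + 1) + 1) (Hd q k d) = - Hd q k d ∧
      ∀ c : F, c ^ q = c → (Hd q k d).comp (X + C c) = Hd q k d

/-- **Inv** (80 lines). Invariance of the polynomial of an invariant set.

Proof. (1) `reflect 1 (X - C u) = 1 - C u * X`, so (`reflect_mul`, induction) `reflect #A (PH A) = ∏_{u ∈ A} (1 - u X)`, and
`reflect (#A + 1) (PH A) = X ∏_{u ∈ A} (1 - u X)` (`reflect 1 1 = X`). The factor of `u = 0` is `1`; for `u ≠ 0`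
`1 - u X = - u (X - u⁻¹)`; `u ↦ u⁻¹` is a bijection of `A \ {0}`; so this is `κ * X ∏_{u ∈ A \ {0}} (X - u) = κ PH A` with
`κ = ∏_{u ∈ A \ {0}} (- u)`. (2) Composition with `X + C c`: the factors become `X - C (u - c)`, and `u ↦ u - c` is a
bijection of `A` (`A` is finite, closed under `+ c`). -/
def S_Inv : Prop :=
  ∀ (F : Type) [Field F] (A : Finset F), (0 : F) ∈ A →
    ((∀ x ∈ A, x⁻¹ ∈ A) → ∃ κ : F, κ ≠ 0 ∧ reflect (A.card + 1) (PH A) = C κ * PH A) ∧
    ∀ c : F, (∀ x ∈ A, x + c ∈ A) → (PH A).comp (X + C c) = PH A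

/-- **Wr** (150 lines). Vanishing of the Wronskian.

Proof. `ν = n + 1`, `W = H G' - H' G`. (a) `X ^ M W = H (X ^ M G' - a G) - G (X ^ M H' - a H)` has degree at most
`2 n - s`, so `M + s + deg W ≤ 2 n` if `W ≠ 0`. (b) For a polynomial `P` of degree at most `ν`, comparing coefficients:
`reflect ν (X P') = ν (reflect ν P) - X (reflect ν P)'`. So `reflect ν (X H') = κ (ν H - X H')`,
`reflect ν (X G') = κ' (ν G - X G')`, and by `reflect_mul`
`reflect (2 ν) (X W) = reflect (H * (X G')) - reflect ((X H') * G) = κ H κ' (ν G - X G') - κ (ν H - X H') κ' G =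
- κ κ' X W`. If `W ≠ 0`, `X W` has degree at most `2 n - M - s + 1`, so `reflect (2 ν) (X W)` is divisible by
`X ^ (2 ν - (2 n - M - s + 1)) = X ^ (M + s + 1)`, and `X ^ (M + s)` divides `W`. (c) `W.comp (X + C c) = W` for `c ∈ S`, so
`(X - C c) ^ (M + s)` divides `W` (compose the divisibility `X ^ (M + s) ∣ W` with `X - C c`; `W.comp (X - C c) = W`).
These are pairwise coprime, so the product over `S` divides `W` and `#S (M + s) ≤ deg W ≤ 2 n - (M + s)`: contradiction. -/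
def S_Wr : Prop :=
  ∀ (F : Type) [Field F] (n M s : ℕ) (a κ κ' : F) (H G : F[X]) (S : Finset F), s ≤ n →
    H.natDegree ≤ n → G.natDegree ≤ n → κ ≠ 0 → κ' ≠ 0 →
    reflect (n + 1) H = C κ * H → reflect (n + 1) G = C κ' * G →
    (X ^ M * derivative H - C a * H).natDegree ≤ n - s →
    (X ^ M * derivative G - C a * G).natDegree ≤ n - s →
    (∀ c ∈ S, H.comp (X + C c) = H ∧ G.comp (X + C c) = G) →
    2 * n < (S.card + 1) * (M + s) → H * derivative G = derivative H * G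

/-- **Clo** (100 lines). The comparison polynomial does not have `q ^ (k + 1)` roots in `F`.

Proof. Let `B = (X ^ q ^ (k - 1) - X) E ^ (q - 1)`, `E = X ^ q ^ k - X ^ q ^ (k - 1)`, so for `x ∈ A`
`x ^ q ^ (k + 1) = x - d B(x)`. Let `φ` be the ring homomorphism `y ↦ y ^ q ^ (k + 1)` of `F` (`iterateFrobenius`),
`d' = φ d`; apply it to `Hd(x) = 0` and use `x ^ q ^ (2 k) = x`:
`x ^ q ^ 2 - x ^ q ^ (k + 1) + d' (x - x ^ q ^ (k + 1)) (x ^ q - x) ^ (q - 1) = 0`
(`x ^ q ^ (2 k + 2) = x ^ q ^ 2`, `x ^ q ^ (2 k + 1) = x ^ q`). Hence `Ψ(x) = 0` for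
`Ψ = X ^ q ^ 2 - X + d B (1 + d' (X ^ q - X) ^ (q - 1))`, a polynomial of degree at most
`q ^ (k - 1) + (q - 1) q ^ k + q (q - 1) < q ^ (k + 1)` (`k ≥ 3`: `q (q - 1) < q ^ (k - 1) (q - 1)`). It has `q ^ (k + 1)` roots, so
`Ψ = 0`; but the coefficient of `X` is `- 1` (`X ^ 2` divides `B`: `X ^ q ^ (k - 1)` divides `E`). -/
def S_Clo : Prop :=
  ∀ (F : Type) [Field F] [Fintype F] (p e q k : ℕ) [CharP F p], p.Prime → 1 ≤ e → q = p ^ e →
    3 ≤ k → Fintype.card F = q ^ (2 * k) → ∀ (d : F) (A : Finset F), A.card = q ^ (k + 1) →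
    (∀ x ∈ A, (Hd q k d).eval x = 0) → False

/-- **Core** (80 lines, uses `S_Om`, `S_Asy`, `S_Hda`, `S_Hdi`, `S_Inv`, `S_Wr`, `S_Clo`).

Proof. `A = hol D`, `H = PH A`, `a` as in `S_Asy`, `d = - a`, `G = Hd q k d`, `n = q ^ (k + 1)`, `M = q ^ k`,
`s = q ^ k - q ^ (k - 1)`; `S` = the set of the scalars: `#S = q`. `(q + 1) (2 q ^ k - q ^ (k - 1)) > 2 q ^ (k + 1)`. By `S_Wr`
`H G' = H' G`. `H` is coprime to `H'` (separable), so `H` divides `G`; both are monic of degree `q ^ (k + 1)`, so `H = G`,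
and all elements of `A` are roots of `G`: `S_Clo`. -/
def S_Core : Prop :=
  ∀ (K F : Type) [Field K] [Fintype K] [Field F] [Fintype F] [Algebra K F] (k : ℕ)
    (D : Finset (Submodule K F)), 3 ≤ k → Nb k D →
    (∀ x : F, (∃ U ∈ D, x ∈ U) → ∃ U ∈ D, x⁻¹ ∈ U) → False

/-- The cyclic codes in `F`. -/
def Cy {K F : Type} [Field K] [Fintype K] [Field F] [Fintype F] [Algebra K F] (k : ℕ)
    (D : Finset (Submodule K F)) : Prop :=
  Fintype.card F = Fintype.card K ^ (2 * k) ∧ (∀ U ∈ D, Module.finrank K U = k) ∧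
  (∀ U ∈ D, ∀ W ∈ D, U ≠ W → Module.finrank K ↥(U ⊓ W) ≤ 1) ∧
  ∀ a : F, a ≠ 0 → ∀ U ∈ D, U.map (LinearMap.mulLeft K a) ∈ D

/-- **Cnt** (100 lines). Counting.

Proof. `r x` = the number of the `U ∈ D` with `x ∈ U`; for `x ≠ 0` `r x = r 1` (`U ↦ x⁻¹ U` is a bijection). Count the pairs
`(x, U)` with `x ∈ U`, `x ≠ 0`: `#D (q ^ k - 1) = r 1 (q ^ (2 k) - 1)`; divide by `q ^ k - 1`. The sets `U \ K`, `1 ∈ U ∈ D`,
are pairwise disjoint, have `q ^ k - q` elements and are contained in `F \ K`. -/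
def S_Cnt : Prop :=
  ∀ (K F : Type) [Field K] [Fintype K] [Field F] [Fintype F] [Algebra K F] (k : ℕ)
    (D : Finset (Submodule K F)), 1 ≤ k → Cy k D →
    D.card = (D.filter fun U => (1 : F) ∈ U).card * (Fintype.card K ^ k + 1) ∧
    (D.filter fun U => (1 : F) ∈ U).card * (Fintype.card K ^ k - Fintype.card K) ≤
      Fintype.card K ^ (2 * k) - Fintype.card K

/-- **Orb** (200 lines, uses `S_Cnt`). The orbits.

Proof. For `U ∈ D` let `St U = {a : Fˣ | a U = U}`, a group containing `Kˣ`. Let `D₁` be the set of the `U ∈ D` with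
`St U = Kˣ`, `D₂` the rest; both are invariant under `Fˣ`. (1) At most one `U ∈ D₂` contains `1`: let `U` be one, and
`a ∈ St U`, `a ∉ K`. For `u ∈ U`, `u ≠ 0`: `u⁻¹ U ∈ D` contains `1` and `a` (`a ∈ a u⁻¹ U = u⁻¹ U`), and `U` contains `1` and `a`, so
`u⁻¹ U = U` (otherwise the intersection has dimension at least two). So `U` is closed under products and inverses,
and all `u ∈ U` satisfy `u ^ (q ^ k) = u` (the group `U \ {0}` has `q ^ k - 1` elements); these are at most `q ^ k` elements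
of `F`, so `U = {u | u ^ q ^ k = u}` is unique. (2) `D₁` is a cyclic code (`Cy`), and the group `Fˣ` (order
`q ^ (2 k) - 1`) acts on it with all stabilizers of order `q - 1`, so by the orbit formula (for example
`MulAction.sum_card_fixedBy_eq_card_orbits_mul_card_group`) `(q - 1) #D₁ = m (q ^ (2 k) - 1)`; by `S_Cnt` for `D₁`
`#D₁ = r₁ (q ^ k + 1)`, so `(q - 1) r₁ = m (q ^ k - 1)` and `r₁ = m ∑_{i < k} q ^ i`. -/
def S_Orb : Prop :=
  ∀ (K F : Type) [Field K] [Fintype K] [Field F] [Fintype F] [Algebra K F] (k : ℕ)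
    (D : Finset (Submodule K F)), 2 ≤ k → Cy k D → ∃ m ε : ℕ, ε ≤ 1 ∧
    (D.filter fun U => (1 : F) ∈ U).card = m * (∑ i ∈ range k, Fintype.card K ^ i) + ε

/-- **Fie** (80 lines, uses `S_Core`, `S_Cnt`, `S_Orb`). Cyclic codes.

Proof. `r` = the number of the `U ∈ D` with `1 ∈ U`. Suppose `#D ≥ q ^ (2 k)`. `r ≥ q ^ k`, otherwise
`#D ≤ (q ^ k - 1) (q ^ k + 1)`. `r ≤ q ^ k + q`, since `(q ^ k + q + 1) (q ^ k - q) > q ^ (2 k) - q` (`k ≥ 3`). `r = m θ + ε`,
`θ = ∑_{i < k} q ^ i`, `(q - 1) θ = q ^ k - 1`; `m ≥ q` would give `r ≥ q θ ≥ q + q ^ 2 + q ^ k`. So `m ≤ q - 1`, `r ≤ q ^ k`,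
`r = q ^ k`. Apply `S_Core` to `{U ∈ D | 1 ∈ U}`: if `x ∈ U`, `1 ∈ U`, `x ≠ 0`, then `x⁻¹ U ∈ D` contains `1` and `x⁻¹`. -/
def S_Fie : Prop :=
  ∀ (K F : Type) [Field K] [Fintype K] [Field F] [Fintype F] [Algebra K F] (k : ℕ)
    (D : Finset (Submodule K F)), 3 ≤ k → Cy k D → D.card ≤ Fintype.card K ^ (2 * k) - 1

/-- **Red** (200 lines, uses `S_Fie`). Commutative groups transitive on the points.

Proof. Let `R = Algebra.adjoin K {g | g ∈ G} ⊆ Module.End K V`, commutative (`Algebra.adjoinCommRingOfComm`). Let `v ≠ 0`.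
`R → V`, `ρ ↦ ρ v`, is surjective (every `w ≠ 0` is `c • g v`) and injective: if `ρ v = 0` then `ρ (g v) = g (ρ v) = 0` for
all `g ∈ G`, so `ρ = 0` (every vector is a multiple of some `g v`). So `ρ ≠ 0`, `σ ≠ 0` imply `ρ σ v ≠ 0`: `R` is a
finite domain, hence a field `F` (`Finite.isField_of_domain`, `IsField.toField`), `K`-isomorphic to `V` as a space, by
`e ρ = ρ v₀`; `#F = q ^ (2 k)`. For `ρ ≠ 0` there are `g ∈ G`, `c ∈ K`, `c ≠ 0`, with `ρ v₀ = c • g v₀`, so `ρ = c g`. So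
`{e⁻¹ U | U ∈ D}` is invariant under multiplication by `ρ` (`e (ρ σ) = ρ (e σ) = c • g (e σ)`, and `c • U = U`); apply `S_Fie`. -/
def S_Red : Prop :=
  ∀ (K V : Type) [Field K] [Fintype K] [AddCommGroup V] [Module K V] (k : ℕ), 3 ≤ k →
    Module.finrank K V = 2 * k → ∀ G : Subgroup (V ≃ₗ[K] V), (∀ g ∈ G, ∀ h ∈ G, g * h = h * g) →
    (∀ v w : V, v ≠ 0 → w ≠ 0 → ∃ g ∈ G, ∃ c : K, g v = c • w) →
    ∀ D : Finset (Submodule K V), (∀ U ∈ D, Module.finrank K U = k) →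
    (∀ U ∈ D, ∀ W ∈ D, U ≠ W → Module.finrank K ↥(U ⊓ W) ≤ 1) →
    (∀ g ∈ G, ∀ U ∈ D, U.map (g : V →ₗ[K] V) ∈ D) → D.card ≤ Fintype.card K ^ (2 * k) - 1

end Pool.Agent.MP8b
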