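import Pool.Agent.Lib.MP_8b575b_co.Cyc.Spec

set_option autoImplicit false

namespace Pool.Agent.MP8b

open Polynomial Finset

open scoped Classical

private theorem Wr_refl {F : Type} [Field F] (ν : ℕ) (P : F[X]) (hP : P.natDegree ≤ ν) :
    reflect ν (X * derivative P) = C (ν : F) * reflect ν P - X * derivative (reflect ν P) := by
  have hxd : ∀ (Q : F[X]) (j : ℕ), (X * derivative Q).coeff j = Q.coeff j * (j : F) := by
    intro Q j
    cases j with
    | zero => simp
    | succ j =>
      rw [coeff_X_mul, coeff_derivative]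
      push_cast
      ring
  ext i
  rw [coeff_sub, coeff_C_mul, hxd, coeff_reflect, coeff_reflect, hxd]
  by_cases hi : i ≤ ν
  · rw [revAt_le hi, Nat.cast_sub hi]
    ring
  · have h1 : revAt ν i = i := by
      rw [revAt_eq_self_of_lt (by omega)]
    rw [h1, coeff_eq_zero_of_natDegree_lt (by omega)]
    ring

theorem tWr : S_Wr := by
  intro F _ n M s a κ κ' H G S hsn hH hG hκ hκ' hrH hrG hdH hdG hc hlt
  by_contra hne
  set W : F[X] := H * derivative G - derivative H * G with hW
  have hW0 : W ≠ 0 := fun h => hne (sub_eq_zero.mp h)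
  -- (a)
  have ha : M + s + W.natDegree ≤ 2 * n := by
    have h1 : X ^ M * W = H * (X ^ M * derivative G - C a * G) - G * (X ^ M * derivative H - C a * H) := by
      rw [hW]; ring
    have h2 : (X ^ M * W).natDegree ≤ n + (n - s) := by
      rw [h1]
      refine (natDegree_sub_le _ _).trans (max_le ?_ ?_)
      · exact natDegree_mul_le.trans (by omega)
      · exact natDegree_mul_le.trans (by omega)
    have h3 : (X ^ M * W).natDegree = M + W.natDegree := by
      rw [natDegree_mul (pow_ne_zero _ X_ne_zero) hW0, natDegree_X_pow]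
    omega
  -- (b)
  have hdHn : (X * derivative H).natDegree ≤ n + 1 := by
    refine natDegree_mul_le.trans ?_
    have := natDegree_derivative_le H
    rw [natDegree_X]
    omega
  have hdGn : (X * derivative G).natDegree ≤ n + 1 := by
    refine natDegree_mul_le.trans ?_
    have := natDegree_derivative_le G
    rw [natDegree_X]
    omega
  have hb : reflect (n + 1 + (n + 1)) (X * W) = - (C (κ * κ') * (X * W)) := by
    have h1 : X * W = H * (X * derivative G) - (X * derivative H) * G := by
      rw [hW]; ring
    rw [h1, reflect_sub, reflect_mul _ _ (hH.trans (Nat.le_succ n)) hdGn,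
      reflect_mul _ _ hdHn (hG.trans (Nat.le_succ n)),
      Wr_refl _ _ (hH.trans (Nat.le_succ n)), Wr_refl _ _ (hG.trans (Nat.le_succ n)), hrH, hrG]
    simp only [derivative_mul, derivative_C, C_mul]
    ring
  have hdvd : X ^ (M + s) ∣ W := by
    rw [X_pow_dvd_iff]
    intro d hd
    have h1 : (reflect (n + 1 + (n + 1)) (X * W)).coeff (d + 1) = 0 := by
      rw [coeff_reflect, revAt_le (by omega)]
      apply coeff_eq_zero_of_natDegree_lt
      rw [natDegree_mul X_ne_zero hW0, natDegree_X]
      omega
    rw [hb, coeff_neg, coeff_C_mul, coeff_X_mul] at h1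
    have h2 := neg_eq_zero.mp h1
    exact (mul_eq_zero.mp h2).resolve_left (mul_ne_zero hκ hκ')
  -- (c)
  have hcomp : ∀ c ∈ S, (X - C c) ^ (M + s) ∣ W := by
    intro c hcS
    obtain ⟨hcH, hcG⟩ := hc c hcS
    have hder : ∀ P : F[X], P.comp (X + C c) = P →
        (derivative P).comp (X + C c) = derivative P := by
      intro P hP
      have := congrArg derivative hP
      rw [derivative_comp] at this
      simpa using this
    have hWc : W.comp (X + C c) = W := by
      rw [hW, sub_comp, mul_comp, mul_comp, hcH, hcG, hder _ hcH, hder _ hcG]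
    have hWc' : W.comp (X - C c) = W := by
      conv_lhs => rw [← hWc]
      rw [comp_assoc]
      simp
    have h3 : (X ^ (M + s) : F[X]).comp (X - C c) ∣ W.comp (X - C c) := by
      obtain ⟨Q, hQ⟩ := hdvd
      exact ⟨Q.comp (X - C c), by rw [hQ, mul_comp]⟩
    rw [hWc'] at h3
    simpa using h3
  have hprod : (∏ c ∈ S, (X - C c) ^ (M + s)) ∣ W := by
    apply Finset.prod_dvd_of_coprime
    · intro c hcS d hdS hcd
      exact IsCoprime.pow (isCoprime_X_sub_C_of_isUnit_sub (sub_ne_zero.mpr hcd).isUnit)
    · exact hcomp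
  have hdeg : (∏ c ∈ S, (X - C c) ^ (M + s) : F[X]).natDegree = S.card * (M + s) := by
    rw [natDegree_prod _ _ (fun c _ => pow_ne_zero _ (X_sub_C_ne_zero c))]
    simp
  have h4 := natDegree_le_of_dvd hprod hW0
  rw [hdeg] at h4
  have h5 : (S.card + 1) * (M + s) = S.card * (M + s) + (M + s) := by ring
  omega

end Pool.Agent.MP8b
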